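import Mathlib

/-!
# Representations of the symmetric group in which symmetrisers over large sets vanish
-/

namespace Pool.Agent.H255R.VZ

open Equiv Finset

variable {L : Type*} [Fintype L] [DecidableEq L] {ι : Type*} [DecidableEq ι]
  {M : Type*} [AddCommGroup M] [Module ℚ M]

/-- The permutations which fix all elements outside of `P`. -/
def SP (P : Finset L) : Finset (Perm L) := Finset.univ.filter fun s => ∀ l, l ∉ P → s l = l

lemma ais (s : Perm L) (x : L) : s (s⁻¹ x) = x := s.apply_symm_apply x

lemma mem_SP {P : Finset L} {s : Perm L} : s ∈ SP P ↔ ∀ l, l ∉ P → s l = l := by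
  rw [SP, mem_filter]
  exact ⟨fun h => h.2, fun h => ⟨mem_univ _, h⟩⟩

/-- The symmetriser over `P`. -/
def symm (ρ : Perm L →* Module.End ℚ M) (P : Finset L) (w : M) : M := ∑ s ∈ SP P, ρ s w

/-- The permutation preserves the types. -/
def TyPres (ty : L → ι) (s : Perm L) : Prop := ∀ l, ty (s l) = ty l

/-- The vector is alternating for the permutations preserving the types and the colours. -/
def IsAlt (ty : L → ι) (ρ : Perm L →* Module.End ℚ M) (c : L → ℕ) (w : M) : Prop :=
  ∀ s : Perm L, TyPres ty s → (∀ l, c (s l) = c l) → ρ s w = ((Perm.sign s : ℤˣ) : ℤ) • w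

lemma SP_empty : SP (∅ : Finset L) = {1} := by
  ext s
  rw [mem_SP, mem_singleton]
  constructor
  · intro h
    ext l
    simpa using h l (notMem_empty l)
  · rintro rfl l _
    rfl

lemma symm_empty (ρ : Perm L →* Module.End ℚ M) (w : M) : symm ρ ∅ w = w := by
  rw [symm, SP_empty, sum_singleton, map_one]
  rfl

/-- Decomposition of the symmetriser. -/
lemma symm_insert (ρ : Perm L →* Module.End ℚ M) {P : Finset L} {x : L} (hx : x ∉ P) (w : M) :
    symm ρ (insert x P) w = symm ρ P w + ∑ y ∈ P, symm ρ P (ρ (swap x y) w) := by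
  have h1 : symm ρ (insert x P) w = ∑ y ∈ insert x P, symm ρ P (ρ (swap x y) w) := by
    simp only [symm]
    rw [← sum_product']
    symm
    refine sum_nbij' (fun p => p.2 * swap x p.1) (fun s => (s⁻¹ x, s * swap x (s⁻¹ x)))
      ?_ ?_ ?_ ?_ ?_
    · rintro ⟨y, s⟩ h
      rw [mem_product] at h
      obtain ⟨hy, hs⟩ := h
      simp only at hy hs ⊢
      rw [mem_SP] at hs ⊢
      intro l hl
      rw [mem_insert, not_or] at hl
      have hly : l ≠ y := by
        rintro rfl
        rw [mem_insert] at hy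
        rcases hy with h | h
        · exact hl.1 h
        · exact hl.2 h
      rw [Perm.mul_apply, swap_apply_of_ne_of_ne hl.1 hly, hs l hl.2]
    · intro s hs
      rw [mem_SP] at hs
      rw [mem_product]
      constructor
      · show s⁻¹ x ∈ insert x P
        by_contra hne
        have h2 := hs _ hne
        rw [ais] at h2
        rw [← h2] at hne
        exact hne (mem_insert_self _ _)
      · show s * swap x (s⁻¹ x) ∈ SP P
        rw [mem_SP]
        intro l hl
        by_cases hlx : l = x
        · subst hlx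
          rw [Perm.mul_apply, swap_apply_left, ais]
        · by_cases hly : l = s⁻¹ x
          · have h2 : s l = l := hs l (by
              rw [mem_insert, not_or]; exact ⟨hlx, hl⟩)
            rw [hly, ais] at h2
            exact absurd (hly.trans h2.symm) hlx
          · rw [Perm.mul_apply, swap_apply_of_ne_of_ne hlx hly]
            exact hs l (by rw [mem_insert, not_or]; exact ⟨hlx, hl⟩)
    · rintro ⟨y, s⟩ h
      rw [mem_product] at h
      obtain ⟨hy, hs⟩ := h
      simp only at hy hs ⊢
      rw [mem_SP] at hs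
      have h2 : (s * swap x y)⁻¹ x = y := by
        rw [Perm.inv_eq_iff_eq, Perm.mul_apply, swap_apply_right, hs x hx]
      rw [h2, mul_assoc, swap_mul_self, mul_one]
    · intro s _
      simp only
      rw [mul_assoc, swap_mul_self, mul_one]
    · rintro ⟨y, s⟩ _
      simp only
      rw [map_mul]
      rfl
  rw [h1, sum_insert hx, swap_self]
  congr 2
  show (ρ (Equiv.refl L)) w = w
  have : (Equiv.refl L : Perm L) = 1 := rfl
  rw [this, map_one]
  rfl

/-- The symmetriser is additive. -/
lemma symm_add (ρ : Perm L →* Module.End ℚ M) (P : Finset L) (v w : M) :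
    symm ρ P (v + w) = symm ρ P v + symm ρ P w := by
  simp only [symm, map_add, sum_add_distrib]

lemma symm_sub (ρ : Perm L →* Module.End ℚ M) (P : Finset L) (v w : M) :
    symm ρ P (v - w) = symm ρ P v - symm ρ P w := by
  simp only [symm, map_sub, sum_sub_distrib]

lemma symm_smul (ρ : Perm L →* Module.End ℚ M) (P : Finset L) (a : ℚ) (w : M) :
    symm ρ P (a • w) = a • symm ρ P w := by
  simp only [symm, map_smul, smul_sum]

lemma symm_sum (ρ : Perm L →* Module.End ℚ M) (P : Finset L) {κ : Type*} (s : Finset κ)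
    (f : κ → M) : symm ρ P (∑ i ∈ s, f i) = ∑ i ∈ s, symm ρ P (f i) := by
  simp only [symm, map_sum]
  rw [sum_comm]

lemma tyPres_of_SP {ty : L → ι} {P : Finset L} {t : ι} (hP : ∀ l ∈ P, ty l = t) {s : Perm L}
    (hs : s ∈ SP P) : TyPres ty s := by
  rw [mem_SP] at hs
  intro l
  by_cases hl : l ∈ P
  · by_cases hsl : s l ∈ P
    · rw [hP _ hl, hP _ hsl]
    · have h1 := s.injective (hs _ hsl)
      rw [h1] at hsl
      exact absurd hl hsl
  · rw [hs l hl]

lemma tyPres_swap {ty : L → ι} {x y : L} (h : ty x = ty y) : TyPres ty (swap x y) := by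
  intro l
  by_cases hx : l = x
  · subst hx; rw [swap_apply_left, h]
  · by_cases hy : l = y
    · subst hy; rw [swap_apply_right, h]
    · rw [swap_apply_of_ne_of_ne hx hy]

section main

variable {ty : L → ι} {q : ι → ℕ} {ρ : Perm L →* Module.End ℚ M} {W M' : Submodule ℚ M}

/-- Moving the element `x` from its block to the block of colour `i`. -/
lemma alt_move {c : L → ℕ} {w : M} (hw : IsAlt ty ρ c w) {x : L} {i : ℕ} (hi : i ≠ c x) :
    IsAlt ty ρ (Function.update c x i)
      (w - ∑ y ∈ univ.filter (fun y => ty y = ty x ∧ c y = i), ρ (swap x y) w) := by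
  set B : Finset L := univ.filter (fun y => ty y = ty x ∧ c y = i) with hB
  have hmB : ∀ y, y ∈ B ↔ ty y = ty x ∧ c y = i := fun y => by
    rw [hB, mem_filter]; exact ⟨fun h => h.2, fun h => ⟨mem_univ _, h⟩⟩
  have hxB : x ∉ B := fun h => hi ((hmB x).1 h).2.symm
  set c' := Function.update c x i with hc'
  have hcx : c' x = i := by rw [hc', Function.update_self]
  have hcn : ∀ l, l ≠ x → c' l = c l := fun l hl => by rw [hc', Function.update_of_ne hl]
  have hmB' : ∀ y, y ∈ insert x B ↔ ty y = ty x ∧ c' y = i := by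
    intro y
    rw [mem_insert, hmB]
    constructor
    · rintro (rfl | ⟨h1, h2⟩)
      · exact ⟨rfl, hcx⟩
      · refine ⟨h1, ?_⟩
        rw [hcn y (by rintro rfl; exact hi h2.symm), h2]
    · rintro ⟨h1, h2⟩
      by_cases hyx : y = x
      · exact Or.inl hyx
      · exact Or.inr ⟨h1, by rw [← hcn y hyx, h2]⟩
  set φ : L → M := fun y => ((Perm.sign (swap x y) : ℤˣ) : ℤ) • ρ (swap x y) w with hφ
  have hu : w - ∑ y ∈ B, ρ (swap x y) w = ∑ y ∈ insert x B, φ y := by
    rw [sum_insert hxB, sub_eq_add_neg, ← sum_neg_distrib]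
    congr 1
    · rw [hφ]
      show w = ((Perm.sign (swap x x) : ℤˣ) : ℤ) • ρ (swap x x) w
      have : (swap x x : Perm L) = 1 := swap_self x
      rw [this, map_one, map_one]
      simp
    · refine sum_congr rfl fun y hy => ?_
      have hxy : x ≠ y := by rintro rfl; exact hxB hy
      rw [hφ]
      show - ρ (swap x y) w = ((Perm.sign (swap x y) : ℤˣ) : ℤ) • ρ (swap x y) w
      rw [Perm.sign_swap hxy]
      simp
  rw [hu]
  intro s hs hsc
  have hsB : ∀ y ∈ insert x B, s y ∈ insert x B := by
    intro y hy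
    rw [hmB'] at hy ⊢
    exact ⟨(hs y).trans hy.1, (hsc y).trans hy.2⟩
  have key : ∀ y ∈ insert x B, ρ s (φ y) = ((Perm.sign s : ℤˣ) : ℤ) • φ (s y) := by
    intro y hy
    have hy' := hsB y hy
    set r : Perm L := swap x (s y) * s * swap x y with hr
    have hrx : r x = x := by
      rw [hr, Perm.mul_apply, Perm.mul_apply, swap_apply_left, swap_apply_right]
    have hswc : ∀ z ∈ insert x B, ∀ l, c' (swap x z l) = c' l := by
      intro z hz l
      have hz' := ((hmB' z).1 hz).2
      by_cases h1 : l = x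
      · subst h1; rw [swap_apply_left, hz', hcx]
      · by_cases h2 : l = z
        · subst h2; rw [swap_apply_right, hz', hcx]
        · rw [swap_apply_of_ne_of_ne h1 h2]
    have hrt : TyPres ty r := by
      intro l
      rw [hr, Perm.mul_apply, Perm.mul_apply, tyPres_swap ((hmB' _).1 hy').1.symm,
        hs, tyPres_swap ((hmB' _).1 hy).1.symm]
    have hrc : ∀ l, c (r l) = c l := by
      intro l
      have h1 : c' (r l) = c' l := by
        rw [hr, Perm.mul_apply, Perm.mul_apply, hswc _ hy', hsc, hswc _ hy]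
      by_cases hl : l = x
      · rw [hl, hrx]
      · have h2 : r l ≠ x := fun h => hl (r.injective (h.trans hrx.symm))
        rwa [hcn _ h2, hcn _ hl] at h1
    have h3 := hw r hrt hrc
    have h4 : s * swap x y = swap x (s y) * r := by
      rw [hr, ← mul_assoc, ← mul_assoc, swap_mul_self, one_mul]
    have h5 : (Perm.sign r : ℤˣ) = Perm.sign (swap x (s y)) * Perm.sign s *
        Perm.sign (swap x y) := by rw [hr, map_mul, map_mul]
    have h6 : ρ s (ρ (swap x y) w) = ((Perm.sign r : ℤˣ) : ℤ) • ρ (swap x (s y)) w := by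
      have h7 : ρ s (ρ (swap x y) w) = ρ (s * swap x y) w := by rw [map_mul]; rfl
      rw [h7, h4, map_mul]
      show ρ (swap x (s y)) (ρ r w) = _
      rw [h3, map_zsmul]
    rw [hφ]
    show ρ s (((Perm.sign (swap x y) : ℤˣ) : ℤ) • ρ (swap x y) w) = ((Perm.sign s : ℤˣ) : ℤ) •
      (((Perm.sign (swap x (s y)) : ℤˣ) : ℤ) • ρ (swap x (s y)) w)
    rw [map_zsmul, h6, h5, smul_smul, smul_smul]
    congr 1
    push_cast
    have h8 : ((Perm.sign (swap x y) : ℤˣ) : ℤ) * ((Perm.sign (swap x y) : ℤˣ) : ℤ) = 1 := by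
      rw [← Units.val_mul, Int.units_mul_self, Units.val_one]
    calc _ = (((Perm.sign (swap x y) : ℤˣ) : ℤ) * ((Perm.sign (swap x y) : ℤˣ) : ℤ)) *
        (((Perm.sign (swap x (s y)) : ℤˣ) : ℤ) * ((Perm.sign s : ℤˣ) : ℤ)) := by ring
      _ = _ := by rw [h8, one_mul, mul_comm]
  rw [map_sum, sum_congr rfl key, ← smul_sum]
  congr 1
  have h9 : (insert x B).image s = insert x B := by
    apply Finset.eq_of_subset_of_card_le
    · intro z hz
      obtain ⟨y, hy, rfl⟩ := mem_image.1 hz
      exact hsB y hy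
    · rw [card_image_of_injective _ s.injective]
  conv_rhs => rw [← h9]
  rw [sum_image (fun a _ b _ h => s.injective h)]

/-- The main step: all alternating vectors lie in `W`. -/
theorem mem_of_alt
    (hM : ∀ s, TyPres ty s → ∀ w ∈ M', ρ s w ∈ M')
    (hW : ∀ s, TyPres ty s → ∀ w ∈ W, ρ s w ∈ W)
    (hsym : ∀ w ∈ M', ∀ (t : ι) (P : Finset L), (∀ l ∈ P, ty l = t) → P.card = q t + 1 →
      symm ρ P w = 0)
    (hgood : ∀ c : L → ℕ, (∀ l, c l < q (ty l)) → ∀ w ∈ M', IsAlt ty ρ c w → w ∈ W) :
    ∀ (N : ℕ) (c : L → ℕ), ∑ l, c l = N → ∀ w ∈ M', IsAlt ty ρ c w → w ∈ W := by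
  intro N
  induction N using Nat.strong_induction_on with
  | _ N ih =>
  intro c hcN w hwM hw
  by_cases hc : ∀ l, c l < q (ty l)
  · exact hgood c hc w hwM hw
  push Not at hc
  obtain ⟨l₀, hl₀⟩ := hc
  set t := ty l₀ with ht
  -- the relation for moving `x` to a block of smaller colour
  have hmove : ∀ (x : L) (i : ℕ), i < c x →
      w - ∑ y ∈ univ.filter (fun y => ty y = ty x ∧ c y = i), ρ (swap x y) w ∈ W := by
    intro x i hi
    refine ih (∑ l, Function.update c x i l) ?_ (Function.update c x i) rfl _ ?_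
      (alt_move hw hi.ne)
    · rw [← hcN, ← add_sum_erase univ _ (mem_univ x),
        ← add_sum_erase univ c (mem_univ x), Function.update_self]
      have h1 : ∑ l ∈ univ.erase x, Function.update c x i l = ∑ l ∈ univ.erase x, c l :=
        sum_congr rfl fun l hl => Function.update_of_ne (ne_of_mem_erase hl) _ _
      rw [h1]
      exact Nat.add_lt_add_right hi _
    · refine Submodule.sub_mem _ hwM (Submodule.sum_mem _ fun y hy => ?_)
      have h2 := (mem_filter.1 hy).2.1
      exact hM _ (tyPres_swap h2.symm) _ hwM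
  -- the blocks of colours `0, …, q t`
  set B : ℕ → Finset L := fun i => univ.filter (fun y => ty y = t ∧ c y = i) with hB
  have hmB : ∀ i y, y ∈ B i ↔ ty y = t ∧ c y = i := fun i y => by
    rw [hB]
    show y ∈ univ.filter (fun y => ty y = t ∧ c y = i) ↔ _
    rw [mem_filter]; exact ⟨fun h => h.2, fun h => ⟨mem_univ _, h⟩⟩
  by_cases hne : ∃ i, i < c l₀ ∧ B i = ∅
  · obtain ⟨i, hi, hBi⟩ := hne
    have h1 := hmove l₀ i hi
    have h2 : univ.filter (fun y => ty y = ty l₀ ∧ c y = i) = ∅ := hBi
    rwa [h2, sum_empty, sub_zero] at h1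
  push Not at hne
  have hBne : ∀ i ≤ q t, (B i).Nonempty := by
    intro i hi
    rcases lt_or_eq_of_le (hi.trans hl₀) with h | h
    · exact hne i h
    · exact ⟨l₀, (hmB i l₀).2 ⟨rfl, h.symm⟩⟩
  have key : ∀ j ≤ q t + 1, ∀ P : Finset L, (∀ y ∈ P, ty y = t ∧ j ≤ c y) →
      P.card = q t + 1 - j → symm ρ P w ∈ W := by
    intro j
    induction j with
    | zero =>
      intro _ P hP hcard
      rw [hsym w hwM t P (fun l hl => (hP l hl).1) (by rw [hcard, Nat.sub_zero])]
      exact Submodule.zero_mem _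
    | succ j ihj =>
      intro hj P hP hcard
      have hstab : ∀ v ∈ W, symm ρ P v ∈ W := fun v hv =>
        Submodule.sum_mem _ fun s hs => hW s (tyPres_of_SP (fun l hl => (hP l hl).1) hs) v hv
      have h1 : ∀ x ∈ B j, symm ρ P w + ∑ y ∈ P, symm ρ P (ρ (swap x y) w) ∈ W := by
        intro x hx
        have hx' := (hmB j x).1 hx
        have hxP : x ∉ P := fun h => by
          have := (hP x h).2
          omega
        rw [← symm_insert ρ hxP]
        refine ihj (by omega) _ ?_ ?_
        · intro y hy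
          rw [mem_insert] at hy
          rcases hy with rfl | hy
          · exact ⟨hx'.1, hx'.2.ge⟩
          · exact ⟨(hP y hy).1, by have := (hP y hy).2; omega⟩
        · rw [card_insert_of_notMem hxP, hcard]
          omega
      have h2 := Submodule.sum_mem W (fun x hx => h1 x hx)
      rw [sum_add_distrib, sum_const, sum_comm] at h2
      have h3 : ∀ y ∈ P, symm ρ P w - ∑ x ∈ B j, symm ρ P (ρ (swap x y) w) ∈ W := by
        intro y hy
        have h4 := hmove y j (by have := (hP y hy).2; omega)
        have h5 := hstab _ h4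
        have h6 : univ.filter (fun z => ty z = ty y ∧ c z = j) = B j := by
          rw [(hP y hy).1]
        rw [symm_sub, symm_sum, h6] at h5
        have h7 : ∑ x ∈ B j, symm ρ P (ρ (swap x y) w) =
            ∑ x ∈ B j, symm ρ P (ρ (swap y x) w) :=
          sum_congr rfl fun x _ => by rw [swap_comm]
        rwa [h7]
      have h4 := Submodule.sum_mem W (fun y hy => h3 y hy)
      rw [sum_sub_distrib, sum_const] at h4
      have h5 := Submodule.add_mem W h2 h4
      have h6 : ((B j).card • symm ρ P w + ∑ y ∈ P, ∑ x ∈ B j, symm ρ P (ρ (swap x y) w)) +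
          (P.card • symm ρ P w - ∑ y ∈ P, ∑ x ∈ B j, symm ρ P (ρ (swap x y) w)) =
          (((B j).card + P.card : ℕ) : ℚ) • symm ρ P w := by
        rw [Nat.cast_smul_eq_nsmul, add_smul]
        abel
      rw [h6] at h5
      have h7 : (((B j).card + P.card : ℕ) : ℚ) ≠ 0 := by
        have : 0 < (B j).card := card_pos.2 (hBne j (by omega))
        exact_mod_cast (by omega : (B j).card + P.card ≠ 0)
      have h8 := Submodule.smul_mem W (((B j).card + P.card : ℕ) : ℚ)⁻¹ h5
      rwa [smul_smul, inv_mul_cancel₀ h7, one_smul] at h8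
  have h := key (q t + 1) le_rfl ∅ (fun y hy => absurd hy (notMem_empty y)) (by simp)
  rwa [symm_empty] at h

/-- All vectors of `M'` lie in `W`. -/
theorem mem_all
    (hM : ∀ s, TyPres ty s → ∀ w ∈ M', ρ s w ∈ M')
    (hW : ∀ s, TyPres ty s → ∀ w ∈ W, ρ s w ∈ W)
    (hsym : ∀ w ∈ M', ∀ (t : ι) (P : Finset L), (∀ l ∈ P, ty l = t) → P.card = q t + 1 →
      symm ρ P w = 0)
    (hgood : ∀ c : L → ℕ, (∀ l, c l < q (ty l)) → ∀ w ∈ M', IsAlt ty ρ c w → w ∈ W)
    {w : M} (hw : w ∈ M') : w ∈ W := by
  refine mem_of_alt hM hW hsym hgood _ (fun l => (Fintype.equivFin L l : ℕ)) rfl w hw ?_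
  intro s _ hs
  have h1 : s = 1 := by
    ext l
    have := hs l
    simpa using (Fintype.equivFin L).injective (Fin.ext this)
  rw [h1, map_one, map_one]
  simp

end main

end Pool.Agent.H255R.VZ
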