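import Pool.Agent.H255R.PC.Defs

/-!
# Alternating sums of products of zero-cycles: definitions
-/

open CategoryTheory AlgebraicGeometry

universe u v w

namespace Pool.Agent.H255R.VZ

open Pool.Agent.H914 Pool.Agent.H914.VarClass Pool.Agent.H914.VarClass.Obj Pool.Agent.W492.BB
  Pool.Agent.W550.Corr Pool.Agent.TH133 Pool.Agent.Y152.AS

variable {k : Type u} [Field k] {𝒱 : VarClass k}

/-- For morphisms `f_0, …, f_{n-1} : P ⟶ S` and classes `a_0, …, a_{n-1}` on `S`, the alternating sum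
`∑_σ sgn(σ) f_0^*(a_{σ(0)}) ⋯ f_{n-1}^*(a_{σ(n-1)})` over all permutations `σ`. (If `P = S^n` and the
`f_i` are the projections then the products are the classes `a_{σ(0)} × ⋯ × a_{σ(n-1)}`.) -/
noncomputable def altSum (C : TheoryData.{u, v, 0} 𝒱 ℚ) {P S : 𝒱.Obj} {n : ℕ}
    (f : Fin n → (P ⟶ S)) (a : Fin n → C.A S) : C.A P :=
  ∑ σ : Equiv.Perm (Fin n), ((Equiv.Perm.sign σ : ℤˣ) : ℤ) •
    (List.ofFn fun i => C.up (f i) (a (σ i))).prod

/-- The sum `∑_σ f_0^*(D_{σ(0)}) ⋯ f_{n-1}^*(D_{σ(n-1)})` over all permutations `σ`. -/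
noncomputable def symSum (C : TheoryData.{u, v, 0} 𝒱 ℚ) {P X : 𝒱.Obj} {n : ℕ}
    (f : Fin n → (P ⟶ X)) (D : Fin n → C.A X) : C.A P :=
  ∑ σ : Equiv.Perm (Fin n), (List.ofFn fun i => C.up (f i) (D (σ i))).prod

/-- The space of the divisor classes of degree zero on a curve `V` (rational coefficients), that
is, the rational points of the Jacobian, tensored with `ℚ`. -/
def degZero (C : TheoryData.{u, v, 0} 𝒱 ℚ) (V : 𝒱.Obj) : Set (C.A V) :=
  {D | C.Deg 1 D ∧ HasDegree C D 0}

/-- The space `Pic^0(S)_ℚ` of the algebraically trivial divisor classes on `S`: the span of the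
classes `Γ_* c`, where `c` is a zero-cycle of degree zero on a curve `T` and `Γ ∈ CH^1(T × S)`. -/
def picZero (C : TheoryData.{u, v, 0} 𝒱 ℚ) (S : 𝒱.Obj) : Set (C.A S) :=
  (algPower C S 1 1 : Set (C.A S))

/-- All symmetrised products of `g + 1` classes of the set `A` of divisor classes on `X` vanish: for
all varieties `P`, morphisms `f_0, …, f_g : P ⟶ X` and classes `D_0, …, D_g` in `A`,
`∑_σ f_0^*(D_{σ(0)}) ⋯ f_g^*(D_{σ(g)}) = 0`. -/
def SymVanish (C : TheoryData.{u, v, 0} 𝒱 ℚ) (X : 𝒱.Obj) (A : Set (C.A X)) (g : ℕ) : Prop :=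
  ∀ (P : 𝒱.Obj) (f : Fin (g + 1) → (P ⟶ X)) (D : Fin (g + 1) → C.A X), (∀ j, D j ∈ A) →
    symSum C f D = 0

/-- There are an abelian variety `B` of dimension `g` (a variety of the class with a commutative
group law) and a morphism `α : X ⟶ B` such that every divisor class `D` in the set `A` is the
pull-back `α^* E` of a divisor class `E` on `B` for which `x ↦ x^* E` is additive on `Hom(P, B)`,
for all `P`.

For `A = Pic^0(X)_ℚ` and `g` the dimension of the Albanese variety of `X` (for a curve: the genus,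
`B` is the Jacobian) this is the basic property of the Albanese variety `B`: it induces an
isomorphism `Pic^0(B) ≅ Pic^0(X)`, and the classes of `Pic^0(B)` are additive by the theorem of
the square. -/
def HasAlbanese (C : TheoryData.{u, v, 0} 𝒱 ℚ) (X : 𝒱.Obj) (A : Set (C.A X)) (g : ℕ) : Prop :=
  ∃ (B : 𝒱.Obj) (_ : GroupLaw B) (α : X ⟶ B), B.dim = g ∧ ∀ D ∈ A, ∃ E : C.A B, C.Deg 1 E ∧
    (∀ (P : 𝒱.Obj) (x y : P ⟶ B), C.up (x + y) E = C.up x E + C.up y E) ∧ D = C.up α E

/-- The zero-cycle `z` with rational coefficients is Albanese-trivial: it has degree zero and lies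
in the Albanese kernel. -/
def AlbTrivial (C : TheoryData.{u, v, 0} 𝒱 ℚ) {S : 𝒱.Obj} (z : C.A S) : Prop :=
  HasDegree C z 0 ∧ InAlbKer C z

/-- `pw S n` is the variety `S^(n+1) = S × (S × (⋯ × S))`. -/
noncomputable def pw (S : 𝒱.Obj) : ℕ → 𝒱.Obj
  | 0 => S
  | n + 1 => S.prod (pw S n)

/-- The projections `p_i : S^(n+1) ⟶ S`. -/
noncomputable def pr (S : 𝒱.Obj) : (n : ℕ) → Fin (n + 1) → (pw S n ⟶ S)
  | 0 => fun _ => 𝟙 S
  | n + 1 => Fin.cases (fst S (pw S n)) (fun i => snd S (pw S n) ≫ pr S n i)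

/-- The assertion of the conjecture of Voisin for the surface `S` (with rational coefficients) with
the number `N` in the place of the geometric genus: for every number `n + 1 > N` and all
Albanese-trivial zero-cycles `a_0, …, a_n` on `S`, the alternating sum of the zero-cycles
`a_{σ(0)} × ⋯ × a_{σ(n)} = p_0^*(a_{σ(0)}) ⋯ p_n^*(a_{σ(n)})` vanishes in `CH(S^(n+1))_ℚ`. -/
def VoisinHolds (C : TheoryData.{u, v, 0} 𝒱 ℚ) (S : 𝒱.Obj) (N : ℕ) : Prop :=
  ∀ (n : ℕ) (a : Fin (n + 1) → C.A S), N < n + 1 → (∀ i, AlbTrivial C (a i)) →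
    altSum C (pr S n) a = 0

/-- The divisor classes `D` of degree zero on the curve `V` with `σ_i^* D = D` if `χ_i` is `false`
and `σ_i^* D = -D` if `χ_i` is `true`, for all `i`: the eigenspace for the character `χ` of the
group generated by the involutions `σ_i` of `V`. -/
def eigen (C : TheoryData.{u, v, 0} 𝒱 ℚ) {V : 𝒱.Obj} {m : ℕ} (σ : Fin m → (V ⟶ V))
    (χ : Fin m → Bool) : Set (C.A V) :=
  {D | D ∈ degZero C V ∧ ∀ i, C.up (σ i) D = if χ i then -D else D}

/-- Commuting involutions of the variety `V`. -/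
structure IsInvolutions {V : 𝒱.Obj} {m : ℕ} (σ : Fin m → (V ⟶ V)) : Prop where
  invol : ∀ i, σ i ≫ σ i = 𝟙 V
  comm : ∀ i j, σ i ≫ σ j = σ j ≫ σ i

/-- The variety `S` is a smooth projective model of the quotient of `V × W` by the group generated
by the involutions `σ_i × τ_i`: there are a variety `X` with morphisms `b : X ⟶ V × W` (birational)
and `π : X ⟶ S` (of degree `d ≠ 0`, that is, `π_*[X] = d [S]`), such that the pull-back to `X` of an
Albanese-trivial zero-cycle on `S` is the pull-back of an Albanese-trivial zero-cycle `y` on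
`V × W` (namely `y = b_* π^* z`) which is invariant under all `σ_i × τ_i`. -/
def IsQuotientModel (C : TheoryData.{u, v, 0} 𝒱 ℚ) {V W : 𝒱.Obj} {m : ℕ} (σ : Fin m → (V ⟶ V))
    (τ : Fin m → (W ⟶ W)) (S : 𝒱.Obj) : Prop :=
  ∃ (X : 𝒱.Obj) (b : X ⟶ V.prod W) (π : X ⟶ S) (d : ℚ), d ≠ 0 ∧ C.down π 1 = d • (1 : C.A S) ∧
    ∀ z : C.A S, AlbTrivial C z → ∃ y : C.A (V.prod W), AlbTrivial C y ∧
      (∀ i, C.up (prodMap (σ i) (τ i)) y = y) ∧ C.up π z = C.up b y

end Pool.Agent.H255R.VZ
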