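import Pool.Agent.H255R.VZ.Alt

/-!
# Vanishing of determinants of Hadamard products
-/

namespace Pool.Agent.H255R.VZ

open Equiv Finset

section reg

variable {L : Type*} [Fintype L] [DecidableEq L] {ι : Type*} [DecidableEq ι]
  {R : Type*} [CommRing R] [Algebra ℚ R]

/-- The left regular representation on functions. -/
def reg (L R : Type*) [CommRing R] [Algebra ℚ R] : Perm L →* Module.End ℚ (Perm L → R) where
  toFun g := LinearMap.funLeft ℚ R (fun σ => g⁻¹ * σ)
  map_one' := by
    ext f σ
    simp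
  map_mul' g h := by
    apply LinearMap.ext
    intro f
    funext σ
    show f ((g * h)⁻¹ * σ) = f (h⁻¹ * (g⁻¹ * σ))
    rw [mul_inv_rev, mul_assoc]

lemma reg_apply (g : Perm L) (f : Perm L → R) (σ : Perm L) : reg L R g f σ = f (g⁻¹ * σ) := rfl

lemma TyPres.inv {ty : L → ι} {g : Perm L} (h : TyPres ty g) : TyPres ty g⁻¹ := by
  intro l
  have := h (g⁻¹ l)
  rw [ais] at this
  exact this.symm

lemma TyPres.mul {ty : L → ι} {g h : Perm L} (hg : TyPres ty g) (hh : TyPres ty h) :
    TyPres ty (g * h) := fun l => (hg _).trans (hh l)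

lemma alt_apply {ty : L → ι} {c : L → ℕ} {f : Perm L → R} (hf : IsAlt ty (reg L R) c f)
    {g : Perm L} (hg : TyPres ty g) (hc : ∀ l, c (g l) = c l) (σ : Perm L) :
    f (g * σ) = ((Perm.sign g : ℤˣ) : ℤ) • f σ := by
  have h1 := hf g⁻¹ hg.inv (fun l => by
    have := hc (g⁻¹ l)
    rw [ais] at this
    exact this.symm)
  have h2 := congrFun h1 σ
  rw [reg_apply, inv_inv, Perm.sign_inv] at h2
  exact h2

/-- Sums over the permutations supported in `P`. -/
lemma sum_SP {A : Type*} [AddCommMonoid A] {P : Finset L} {m : ℕ} (e : Fin m ≃ {l // l ∈ P})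
    (F : Perm L → A) :
    ∑ s ∈ SP P, F s = ∑ π : Perm (Fin m), F (π.extendDomain e) := by
  symm
  refine sum_bij (fun π _ => π.extendDomain e) ?_ ?_ ?_ ?_
  · intro π _
    rw [mem_SP]
    intro l hl
    exact Perm.extendDomain_apply_not_subtype π e hl
  · intro π _ π' _ h
    exact Perm.extendDomainHom_injective e h
  · intro s hs
    rw [mem_SP] at hs
    have hP : ∀ l, s l ∈ P ↔ l ∈ P := by
      intro l
      constructor
      · intro h
        by_contra hl
        rw [hs l hl] at h
        exact hl h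
      · intro h
        by_contra hl
        have h1 := s.injective (hs _ hl)
        rw [h1] at hl
        exact hl h
    refine ⟨(e.trans (s.subtypePerm hP)).trans e.symm, mem_univ _, ?_⟩
    ext l
    by_cases hl : l ∈ P
    · obtain ⟨j, hj⟩ := e.surjective ⟨l, hl⟩
      have h1 : l = (e j : L) := by rw [hj]
      rw [h1, Perm.extendDomain_apply_image]
      simp
    · rw [Perm.extendDomain_apply_not_subtype _ _ hl, hs l hl]
  · intro π _
    rfl

/-- The product of the entries `X (pos l) (σ l)`. -/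
def prodFn {κ : Type*} (pos : L → κ) (X : κ → L → R) : Perm L → R := fun σ => ∏ l, X (pos l) (σ l)

/-- The symmetrisers over large sets kill the product function. -/
lemma symm_prodFn {κ : Type*} {ty : L → ι} {q : ι → ℕ} (pos : L → κ) (X : κ → L → R)
    (hR : ∀ (t : ι) (lab : Fin (q t + 1) → L) (ps : Fin (q t + 1) → κ),
      (∀ j, ty (lab j) = t) → ∑ s : Perm (Fin (q t + 1)), ∏ j, X (ps j) (lab (s j)) = 0)
    {g : Perm L} (hg : TyPres ty g) {t : ι} {P : Finset L} (hP : ∀ l ∈ P, ty l = t)
    (hcard : P.card = q t + 1) :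
    symm (reg L R) P (reg L R g (prodFn pos X)) = 0 := by
  funext σ
  have e : Fin (q t + 1) ≃ {l // l ∈ P} := (P.equivFinOfCardEq hcard).symm
  have h1 : symm (reg L R) P (reg L R g (prodFn pos X)) σ =
      ∑ s ∈ SP P, ∏ l, X (pos l) (g⁻¹ (s⁻¹ (σ l))) := by
    rw [symm, Finset.sum_apply]
    rfl
  rw [h1]
  have h2 : ∀ s ∈ SP P, ∏ l, X (pos l) (g⁻¹ (s⁻¹ (σ l))) =
      (∏ p ∈ univ.filter (fun p => p ∉ P), X (pos (σ⁻¹ p)) (g⁻¹ p)) *
        ∏ p ∈ P, X (pos (σ⁻¹ p)) (g⁻¹ (s⁻¹ p)) := by
    intro s hs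
    rw [mem_SP] at hs
    have h3 : ∏ l, X (pos l) (g⁻¹ (s⁻¹ (σ l))) =
        ∏ p, X (pos (σ⁻¹ p)) (g⁻¹ (s⁻¹ p)) := by
      conv_rhs => rw [← Equiv.prod_comp σ]
      refine prod_congr rfl fun l _ => ?_
      have : σ⁻¹ (σ l) = l := σ.symm_apply_apply l
      rw [this]
    rw [h3, ← prod_filter_not_mul_prod_filter univ (fun p => p ∈ P)]
    congr 1
    · refine prod_congr rfl fun p hp => ?_
      have h4 : s p = p := hs p (mem_filter.1 hp).2
      have h5 : s⁻¹ p = p := by
        rw [Perm.inv_eq_iff_eq]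
        exact h4.symm
      rw [h5]
    · refine prod_congr ?_ fun _ _ => rfl
      ext p
      simp
  rw [sum_congr rfl h2, ← mul_sum, sum_SP e]
  have h3 : ∀ π : Perm (Fin (q t + 1)),
      ∏ p ∈ P, X (pos (σ⁻¹ p)) (g⁻¹ ((π.extendDomain e)⁻¹ p)) =
        ∏ j, X (pos (σ⁻¹ (e j : L))) (g⁻¹ (e (π⁻¹ j) : L)) := by
    intro π
    rw [← prod_coe_sort P (fun p => X (pos (σ⁻¹ p)) (g⁻¹ ((π.extendDomain e)⁻¹ p))),
      ← Equiv.prod_comp e]
    refine prod_congr rfl fun j _ => ?_
    rw [Perm.extendDomain_inv, Perm.extendDomain_apply_image]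
  rw [sum_congr rfl fun π _ => h3 π, ← Equiv.sum_comp (Equiv.inv (Perm (Fin (q t + 1))))]
  have h4 : ∑ π : Perm (Fin (q t + 1)), ∏ j, X (pos (σ⁻¹ (e j : L)))
      (g⁻¹ (e ((Equiv.inv (Perm (Fin (q t + 1))) π)⁻¹ j) : L)) = 0 := by
    have h5 := hR t (fun j => g⁻¹ (e j : L)) (fun j => pos (σ⁻¹ (e j : L)))
      (fun j => (hg.inv _).trans (hP _ (e j).2))
    rw [← h5]
    refine sum_congr rfl fun π _ => prod_congr rfl fun j _ => ?_
    rw [Equiv.inv_apply, inv_inv]
  rw [h4, mul_zero]
  rfl

end reg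

section hadamard

variable {n : ℕ} {ι : Type*} [DecidableEq ι] {R : Type*} [CommRing R] [Algebra ℚ R]

/-- The elements of the hyperoctahedral group. -/
def hyp (τ : Perm (Fin n)) (ε : Fin n → Bool) : Perm (Fin n × Bool) :=
  Equiv.prodShear τ (fun i => if ε i then Equiv.boolNot else Equiv.refl Bool)

lemma hyp_apply (τ : Perm (Fin n)) (ε : Fin n → Bool) (i : Fin n) (b : Bool) :
    hyp τ ε (i, b) = (τ i, xor (ε i) b) := by
  rw [hyp, Equiv.prodShear_apply]
  cases h : ε i <;> simp [h]

/-- The functional `Ψ`. -/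
def psi (n : ℕ) (R : Type*) [CommRing R] [Algebra ℚ R] :
    (Perm (Fin n × Bool) → R) →ₗ[ℚ] R :=
  ∑ τ : Perm (Fin n), ∑ ε : Fin n → Bool, ((Perm.sign τ : ℤˣ) : ℤ) • LinearMap.proj (hyp τ ε)

lemma psi_apply (f : Perm (Fin n × Bool) → R) :
    psi n R f = ∑ τ : Perm (Fin n), ((Perm.sign τ : ℤˣ) : ℤ) • ∑ ε : Fin n → Bool,
      f (hyp τ ε) := by
  rw [psi, LinearMap.sum_apply]
  refine sum_congr rfl fun τ _ => ?_
  rw [LinearMap.sum_apply, smul_sum]
  rfl

lemma zero_of_eq_neg {x : R} (h : x = -x) : x = 0 := by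
  have h1 : (2 : ℚ) • x = 0 := by
    rw [two_smul]
    nth_rewrite 1 [h]
    rw [neg_add_cancel]
  have h2 : ((2 : ℚ)⁻¹ * 2) • x = 0 := by rw [mul_smul, h1, smul_zero]
  rwa [inv_mul_cancel₀ two_ne_zero, one_smul] at h2

/-- Alternating functions for good colourings are killed by `Ψ`. -/
lemma psi_zero {ty : Fin n × Bool → ι} {q : ι → ℕ} {Qs : Finset (Sym2 (Σ t, Fin (q t)))}
    (hQs : ∀ (i : Fin n) (b : Fin (q (ty (i, false)))) (b' : Fin (q (ty (i, true)))),
      (⟨ty (i, false), b⟩ : Σ t, Fin (q t)) ≠ ⟨ty (i, true), b'⟩ →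
        s((⟨ty (i, false), b⟩ : Σ t, Fin (q t)), ⟨ty (i, true), b'⟩) ∈ Qs)
    (hn : Qs.card < n) {c : Fin n × Bool → ℕ} (hc : ∀ l, c l < q (ty l))
    {f : Perm (Fin n × Bool) → R} (hf : IsAlt ty (reg (Fin n × Bool) R) c f) :
    psi n R f = 0 := by
  set blk : Fin n × Bool → Σ t, Fin (q t) := fun l => ⟨ty l, ⟨c l, hc l⟩⟩ with hblk
  have hblk_ty : ∀ l l', blk l = blk l' → ty l = ty l' := fun l l' h => (Sigma.mk.inj_iff.1 h).1
  have hblk_c : ∀ l l', blk l = blk l' → c l = c l' := by
    intro l l' h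
    have h1 : (blk l).2.val = (blk l').2.val := by rw [h]
    exact h1
  rw [psi_apply]
  by_cases h1 : ∃ i, blk (i, false) = blk (i, true)
  · obtain ⟨i, hi⟩ := h1
    refine sum_eq_zero fun τ _ => ?_
    have hne : ((i, false) : Fin n × Bool) ≠ (i, true) := by simp
    set g : Perm (Fin n × Bool) := swap (i, false) (i, true) with hg
    have hgt : TyPres ty g := tyPres_swap (hblk_ty _ _ hi)
    have hgc : ∀ l, c (g l) = c l := by
      intro l
      by_cases h2 : l = (i, false)
      · rw [h2, hg, swap_apply_left, hblk_c _ _ hi]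
      · by_cases h3 : l = (i, true)
        · rw [h3, hg, swap_apply_right, hblk_c _ _ hi]
        · rw [hg, swap_apply_of_ne_of_ne h2 h3]
    have hgs : Perm.sign g = -1 := Perm.sign_swap hne
    set k := τ⁻¹ i with hk
    have hτk : τ k = i := ais τ i
    have hinv : Function.Involutive (fun ε : Fin n → Bool => Function.update ε k (!ε k)) := by
      intro ε
      funext j
      by_cases hj : j = k
      · subst hj; simp
      · simp [Function.update_of_ne hj]
    have hgE : ∀ ε, g * hyp τ ε = hyp τ (Function.update ε k (!ε k)) := by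
      intro ε
      apply Equiv.ext
      rintro ⟨j, b⟩
      rw [Perm.mul_apply, hyp_apply, hyp_apply]
      by_cases hj : j = k
      · subst hj
        rw [hτk, Function.update_self, hg]
        cases h : xor (ε k) b
        · rw [swap_apply_left]
          cases hε : ε k <;> cases b <;> simp_all
        · rw [swap_apply_right]
          cases hε : ε k <;> cases b <;> simp_all
      · have h4 : τ j ≠ i := fun h => hj (by rw [hk, ← h]; exact (τ.symm_apply_apply j).symm)
        rw [Function.update_of_ne hj, hg, swap_apply_of_ne_of_ne]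
        · intro h; exact h4 (congrArg Prod.fst h)
        · intro h; exact h4 (congrArg Prod.fst h)
    have h5 : ∑ ε : Fin n → Bool, f (hyp τ ε) = -∑ ε : Fin n → Bool, f (hyp τ ε) := by
      conv_lhs => rw [← Equiv.sum_comp hinv.toPerm]
      rw [← sum_neg_distrib]
      refine sum_congr rfl fun ε _ => ?_
      show f (hyp τ (Function.update ε k (!ε k))) = _
      rw [← hgE, alt_apply hf hgt hgc, hgs]
      simp
    rw [zero_of_eq_neg h5, smul_zero]
  · push Not at h1
    obtain ⟨i, _, j, _, hij, heq⟩ := exists_ne_map_eq_of_card_lt_of_maps_to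
      (s := (univ : Finset (Fin n))) (t := Qs) (by rw [card_univ, Fintype.card_fin]; exact hn)
      (f := fun i => s(blk (i, false), blk (i, true)))
      (fun i _ => hQs i ⟨c (i, false), hc _⟩ ⟨c (i, true), hc _⟩ (h1 i))
    have hδ : ∃ δ : Bool, ∀ b, blk (i, b) = blk (j, xor δ b) := by
      rcases Sym2.eq_iff.1 heq with ⟨h2, h3⟩ | ⟨h2, h3⟩
      · refine ⟨false, fun b => ?_⟩
        cases b
        · simpa using h2
        · simpa using h3
      · refine ⟨true, fun b => ?_⟩
        cases b
        · simpa using h2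
        · simpa using h3
    obtain ⟨δ, hδ⟩ := hδ
    have hne1 : ((i, false) : Fin n × Bool) ≠ (j, δ) := fun h => hij (congrArg Prod.fst h)
    have hne2 : ((i, true) : Fin n × Bool) ≠ (j, !δ) := fun h => hij (congrArg Prod.fst h)
    set g : Perm (Fin n × Bool) := swap (i, false) (j, δ) * swap (i, true) (j, !δ) with hg
    have hn1 : ∀ a b : Bool, ((i, a) : Fin n × Bool) ≠ (j, b) :=
      fun a b h => hij (congrArg Prod.fst h)
    have hn2 : ∀ a b : Bool, ((j, a) : Fin n × Bool) ≠ (i, b) :=
      fun a b h => hij (congrArg Prod.fst h).symm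
    have e1 : swap (i, true) (j, !δ) (i, false) = (i, false) :=
      swap_apply_of_ne_of_ne (by simp) (hn1 _ _)
    have e2 : swap ((i, true) : Fin n × Bool) (j, !δ) (i, true) = (j, !δ) := swap_apply_left _ _
    have e3 : swap ((i, true) : Fin n × Bool) (j, !δ) (j, !δ) = (i, true) := swap_apply_right _ _
    have e4 : swap (i, true) (j, !δ) (j, δ) = (j, δ) :=
      swap_apply_of_ne_of_ne (hn2 _ _) (by simp)
    have f1 : swap ((i, false) : Fin n × Bool) (j, δ) (i, false) = (j, δ) := swap_apply_left _ _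
    have f2 : swap (i, false) (j, δ) (j, !δ) = (j, !δ) :=
      swap_apply_of_ne_of_ne (hn2 _ _) (by simp)
    have f3 : swap (i, false) (j, δ) (i, true) = (i, true) :=
      swap_apply_of_ne_of_ne (by simp) (hn1 _ _)
    have f4 : swap ((i, false) : Fin n × Bool) (j, δ) (j, δ) = (i, false) := swap_apply_right _ _
    have hg1 : ∀ b, g (i, b) = (j, xor δ b) := by
      intro b
      rw [hg, Perm.mul_apply]
      cases b
      · rw [e1, f1, Bool.xor_false]
      · rw [e2, f2, Bool.xor_true]
    have hg2 : ∀ b, g (j, b) = (i, xor δ b) := by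
      intro b
      rw [hg, Perm.mul_apply]
      by_cases hb : b = δ
      · rw [hb, e4, f4, Bool.xor_self]
      · have hb' : b = !δ := by cases b <;> cases δ <;> simp_all
        rw [hb', e3, f3]
        cases δ <;> rfl
    have hg3 : ∀ l : Fin n × Bool, l.1 ≠ i → l.1 ≠ j → g l = l := by
      intro l hl1 hl2
      have h3 : ∀ b : Bool, l ≠ (i, b) := fun b h => hl1 (congrArg Prod.fst h)
      have h4 : ∀ b : Bool, l ≠ (j, b) := fun b h => hl2 (congrArg Prod.fst h)
      have h5 : swap (i, true) (j, !δ) l = l := swap_apply_of_ne_of_ne (h3 _) (h4 _)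
      rw [hg, Perm.mul_apply, h5]
      exact swap_apply_of_ne_of_ne (h3 _) (h4 _)
    have hgb : ∀ l, blk (g l) = blk l := by
      rintro ⟨k, b⟩
      by_cases hk1 : k = i
      · subst hk1; rw [hg1, hδ]
      · by_cases hk2 : k = j
        · subst hk2
          rw [hg2, hδ, ← Bool.xor_assoc, Bool.xor_self, Bool.false_xor]
        · rw [hg3 _ hk1 hk2]
    have hgt : TyPres ty g := fun l => hblk_ty _ _ (hgb l)
    have hgc : ∀ l, c (g l) = c l := fun l => hblk_c _ _ (hgb l)
    have hgs : Perm.sign g = 1 := by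
      rw [hg, map_mul, Perm.sign_swap hne1, Perm.sign_swap hne2]
      simp
    -- the involution on the signs
    set up : Perm (Fin n) → (Fin n → Bool) → (Fin n → Bool) := fun τ ε k =>
      if τ k = i ∨ τ k = j then xor δ (ε k) else ε k with hup
    have hinv : ∀ τ, Function.Involutive (up τ) := by
      intro τ ε
      funext k
      rw [hup]
      show (if τ k = i ∨ τ k = j then xor δ (if τ k = i ∨ τ k = j then xor δ (ε k) else ε k)
        else if τ k = i ∨ τ k = j then xor δ (ε k) else ε k) = ε k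
      by_cases h : τ k = i ∨ τ k = j
      · rw [if_pos h, if_pos h, ← Bool.xor_assoc, Bool.xor_self, Bool.false_xor]
      · rw [if_neg h, if_neg h]
    have hgE : ∀ τ ε, g * hyp τ ε = hyp (swap i j * τ) (up τ ε) := by
      intro τ ε
      apply Equiv.ext
      rintro ⟨k, b⟩
      rw [Perm.mul_apply, hyp_apply, hyp_apply, Perm.mul_apply, hup]
      show g (τ k, xor (ε k) b) = (swap i j (τ k), xor (if τ k = i ∨ τ k = j then xor δ (ε k)
        else ε k) b)
      by_cases h2 : τ k = i
      · rw [h2, hg1, swap_apply_left, if_pos (Or.inl rfl), Bool.xor_assoc]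
      · by_cases h3 : τ k = j
        · rw [h3, hg2, swap_apply_right, if_pos (Or.inr rfl), Bool.xor_assoc]
        · rw [hg3 _ h2 h3, swap_apply_of_ne_of_ne h2 h3, if_neg (by tauto)]
    have hS : ∀ τ, ∑ ε : Fin n → Bool, f (hyp (swap i j * τ) ε) =
        ∑ ε : Fin n → Bool, f (hyp τ ε) := by
      intro τ
      rw [← Equiv.sum_comp (hinv τ).toPerm]
      refine sum_congr rfl fun ε _ => ?_
      show f (hyp (swap i j * τ) (up τ ε)) = _
      rw [← hgE, alt_apply hf hgt hgc, hgs]
      simp
    apply zero_of_eq_neg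
    conv_lhs => rw [← Equiv.sum_comp (Equiv.mulLeft (swap i j))]
    rw [← sum_neg_distrib]
    refine sum_congr rfl fun τ _ => ?_
    rw [Equiv.coe_mulLeft, hS, map_mul, Perm.sign_swap hij]
    simp

/-- **Vanishing theorem.** If the permanents of `q t + 1` columns of type `t` (and any rows) of the
matrix `X` vanish for all types `t`, and there are less than `n` admissible pairs of blocks, then
the determinant of the Hadamard product of the two halves of `X` vanishes. -/
theorem det_zero (ty : Fin n × Bool → ι) (q : ι → ℕ) (X : Fin n → Fin n × Bool → R)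
    (hR : ∀ (t : ι) (lab : Fin (q t + 1) → Fin n × Bool) (ps : Fin (q t + 1) → Fin n),
      (∀ j, ty (lab j) = t) → ∑ s : Perm (Fin (q t + 1)), ∏ j, X (ps j) (lab (s j)) = 0)
    (Qs : Finset (Sym2 (Σ t, Fin (q t))))
    (hQs : ∀ (i : Fin n) (b : Fin (q (ty (i, false)))) (b' : Fin (q (ty (i, true)))),
      (⟨ty (i, false), b⟩ : Σ t, Fin (q t)) ≠ ⟨ty (i, true), b'⟩ →
        s((⟨ty (i, false), b⟩ : Σ t, Fin (q t)), ⟨ty (i, true), b'⟩) ∈ Qs)
    (hn : Qs.card < n) :
    ∑ τ : Perm (Fin n), ((Perm.sign τ : ℤˣ) : ℤ) •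
      ∏ i, (X i (τ i, false) * X i (τ i, true)) = 0 := by
  set m : Perm (Fin n × Bool) → R := prodFn (fun l : Fin n × Bool => l.1) X with hm
  -- the submodules
  let M' : Submodule ℚ (Perm (Fin n × Bool) → R) :=
    { carrier := {f | ∀ g : Perm (Fin n × Bool), TyPres ty g → ∀ (t : ι)
        (P : Finset (Fin n × Bool)), (∀ l ∈ P, ty l = t) → P.card = q t + 1 →
          symm (reg (Fin n × Bool) R) P (reg (Fin n × Bool) R g f) = 0}
      add_mem' := by
        intro f f' hf hf' g hg t P hP hcard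
        rw [map_add, symm_add, hf g hg t P hP hcard, hf' g hg t P hP hcard, add_zero]
      zero_mem' := by
        intro g hg t P hP hcard
        rw [map_zero]
        simp [symm]
      smul_mem' := by
        intro a f hf g hg t P hP hcard
        rw [map_smul, symm_smul, hf g hg t P hP hcard, smul_zero] }
  let W : Submodule ℚ (Perm (Fin n × Bool) → R) :=
    { carrier := {f | ∀ g : Perm (Fin n × Bool), TyPres ty g →
        psi n R (reg (Fin n × Bool) R g f) = 0}
      add_mem' := by
        intro f f' hf hf' g hg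
        rw [map_add, map_add, hf g hg, hf' g hg, add_zero]
      zero_mem' := by
        intro g hg
        rw [map_zero, map_zero]
      smul_mem' := by
        intro a f hf g hg
        rw [map_smul, map_smul, hf g hg, smul_zero] }
  have hmul : ∀ (g s : Perm (Fin n × Bool)) (f : Perm (Fin n × Bool) → R),
      reg (Fin n × Bool) R g (reg (Fin n × Bool) R s f) = reg (Fin n × Bool) R (g * s) f := by
    intro g s f
    rw [map_mul]
    rfl
  have hmW : m ∈ W := by
    refine mem_all (ty := ty) (q := q) (ρ := reg (Fin n × Bool) R) (M' := M') ?_ ?_ ?_ ?_ ?_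
    · intro s hs w hw g hg t P hP hcard
      rw [hmul]
      exact hw _ (hg.mul hs) t P hP hcard
    · intro s hs w hw g hg
      rw [hmul]
      exact hw _ (hg.mul hs)
    · intro w hw t P hP hcard
      have := hw 1 (fun _ => rfl) t P hP hcard
      rwa [map_one] at this
    · intro c hc w _ hw g hg
      refine psi_zero hQs hn (c := fun l => c (g⁻¹ l)) ?_ ?_
      · intro l
        have h1 := hc (g⁻¹ l)
        rw [hg.inv l] at h1
        exact h1
      · intro s hs hsc
        have h1 : g⁻¹ * s * g = g⁻¹ * (s * g) := mul_assoc _ _ _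
        have h2 := hw (g⁻¹ * s * g) ((hg.inv.mul hs).mul hg) (by
          intro l
          have h4 : c (g⁻¹ (s (g l))) = c (g⁻¹ (g l)) := hsc (g l)
          have h5 : g⁻¹ (g l) = l := g.symm_apply_apply l
          rw [Perm.mul_apply, Perm.mul_apply, h4, h5])
        have h3 : reg (Fin n × Bool) R s (reg (Fin n × Bool) R g w) =
            reg (Fin n × Bool) R g (reg (Fin n × Bool) R (g⁻¹ * s * g) w) := by
          rw [hmul, hmul, h1, mul_inv_cancel_left]
        rw [h3, h2, map_zsmul]
        congr 2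
        rw [map_mul, map_mul, Perm.sign_inv]
        rw [mul_right_comm, Int.units_mul_self, one_mul]
    · intro g hg t P hP hcard
      exact symm_prodFn _ X hR hg hP hcard
  have h1 := hmW 1 (fun _ => rfl)
  rw [map_one] at h1
  have h2 : psi n R m = 0 := h1
  rw [psi_apply] at h2
  have h3 : ∀ (τ : Perm (Fin n)) (ε : Fin n → Bool), m (hyp τ ε) =
      ∏ i, (X i (τ i, false) * X i (τ i, true)) := by
    intro τ ε
    rw [hm, prodFn, Fintype.prod_prod_type]
    refine prod_congr rfl fun i _ => ?_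
    rw [Fintype.prod_bool, hyp_apply, hyp_apply]
    cases ε i
    · simp [mul_comm]
    · simp
  have h4 : ∀ τ : Perm (Fin n), ∑ ε : Fin n → Bool, m (hyp τ ε) =
      (2 ^ n : ℚ) • ∏ i, (X i (τ i, false) * X i (τ i, true)) := by
    intro τ
    rw [sum_congr rfl fun ε _ => h3 τ ε, sum_const, card_univ]
    have : Fintype.card (Fin n → Bool) = 2 ^ n := by simp
    rw [this, ← Nat.cast_smul_eq_nsmul ℚ]
    push_cast
    rfl
  rw [sum_congr rfl fun τ _ => by rw [h4 τ, smul_comm], ← smul_sum] at h2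
  have h5 : (2 ^ n : ℚ) ≠ 0 := by positivity
  rw [← one_smul ℚ (∑ τ : Perm (Fin n), ((Perm.sign τ : ℤˣ) : ℤ) •
    ∏ i, (X i (τ i, false) * X i (τ i, true))), ← inv_mul_cancel₀ h5, mul_smul, h2, smul_zero]

end hadamard

end Pool.Agent.H255R.VZ
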