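import Mathlib

/-!
# Permanents and inclusion-exclusion
-/

namespace Pool.Agent.H255R.VZ

open Finset

/-- If all products `∏_j ∑_{k ∈ I} a_{kj}` vanish then the permanent of `a` vanishes. -/
theorem ryser {R : Type*} [CommRing R] {m : ℕ} (a : Fin m → Fin m → R)
    (h : ∀ I : Finset (Fin m), ∏ j, ∑ k ∈ I, a k j = 0) :
    ∑ s : Equiv.Perm (Fin m), ∏ j, a (s j) j = 0 := by
  have h1 : ∑ I : Finset (Fin m), (-1 : R) ^ I.card * ∏ j, ∑ k ∈ I, a k j = 0 :=
    sum_eq_zero fun I _ => by rw [h I, mul_zero]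
  have h2 : ∀ I : Finset (Fin m), (-1 : R) ^ I.card * ∏ j, ∑ k ∈ I, a k j =
      ∑ φ : Fin m → Fin m, (if ∀ j, φ j ∈ I then (-1 : R) ^ I.card else 0) * ∏ j, a (φ j) j := by
    intro I
    rw [prod_univ_sum, mul_sum]
    have e1 : Fintype.piFinset (fun _ : Fin m => I) = univ.filter (fun φ => ∀ j, φ j ∈ I) := by
      ext φ
      simp [Fintype.mem_piFinset]
    rw [e1, sum_filter]
    refine sum_congr rfl fun φ _ => ?_
    split_ifs
    · rfl
    · rw [zero_mul]
  rw [sum_congr rfl fun I _ => h2 I, sum_comm] at h1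
  have h3 : ∀ φ : Fin m → Fin m, ∑ I : Finset (Fin m), (if ∀ j, φ j ∈ I then (-1 : R) ^ I.card
      else 0) = if Function.Surjective φ then (-1 : R) ^ m else 0 := by
    intro φ
    by_cases hφ : Function.Surjective φ
    · rw [if_pos hφ, sum_eq_single univ]
      · rw [if_pos fun j => mem_univ _, card_univ, Fintype.card_fin]
      · intro I _ hI
        rw [if_neg]
        intro hj
        exact hI (eq_univ_iff_forall.2 fun x => by
          obtain ⟨j, rfl⟩ := hφ x
          exact hj j)
      · intro h; exact absurd (mem_univ _) h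
    · rw [if_neg hφ]
      rw [Function.Surjective] at hφ
      push Not at hφ
      obtain ⟨x, hx⟩ := hφ
      have e1 : (univ : Finset (Finset (Fin m))) = (insert x (univ.erase x)).powerset := by
        rw [insert_erase (mem_univ x), powerset_univ]
      rw [e1, sum_powerset_insert (notMem_erase x univ), ← sum_add_distrib]
      refine sum_eq_zero fun t ht => ?_
      have hxt : x ∉ t := fun h' => notMem_erase x univ (mem_powerset.1 ht h')
      have e2 : (∀ j, φ j ∈ insert x t) ↔ ∀ j, φ j ∈ t := by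
        refine forall_congr' fun j => ?_
        rw [mem_insert, or_iff_right (hx j)]
      by_cases hj : ∀ j, φ j ∈ t
      · rw [if_pos hj, if_pos (e2.2 hj), card_insert_of_notMem hxt, pow_succ]
        ring
      · rw [if_neg hj, if_neg (fun h' => hj (e2.1 h')), add_zero]
  rw [sum_congr rfl fun φ _ => by rw [← sum_mul, h3 φ]] at h1
  have h4 : ∑ φ : Fin m → Fin m, (if Function.Surjective φ then (-1 : R) ^ m else 0) *
      ∏ j, a (φ j) j = (-1 : R) ^ m * ∑ s : Equiv.Perm (Fin m), ∏ j, a (s j) j := by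
    have e1 : ∀ φ : Fin m → Fin m, (if Function.Surjective φ then (-1 : R) ^ m else 0) *
        ∏ j, a (φ j) j = if Function.Bijective φ then (-1 : R) ^ m * ∏ j, a (φ j) j else 0 := by
      intro φ
      by_cases hφ : Function.Surjective φ
      · rw [if_pos hφ, if_pos (Finite.surjective_iff_bijective.1 hφ)]
      · rw [if_neg hφ, if_neg (fun h' => hφ h'.2), zero_mul]
    rw [sum_congr rfl fun φ _ => e1 φ, ← sum_filter, mul_sum]
    symm
    refine sum_bij (fun s _ => ⇑s) ?_ ?_ ?_ ?_
    · intro s _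
      exact mem_filter.2 ⟨mem_univ _, s.bijective⟩
    · intro s _ s' _ hs
      exact Equiv.coe_fn_injective hs
    · intro φ hφ
      exact ⟨Equiv.ofBijective φ (mem_filter.1 hφ).2, mem_univ _, rfl⟩
    · intro s _
      rfl
  rw [h4] at h1
  have h5 : (-1 : R) ^ m * (-1 : R) ^ m = 1 := by
    rw [← mul_pow]; simp
  calc ∑ s : Equiv.Perm (Fin m), ∏ j, a (s j) j =
      (-1 : R) ^ m * ((-1 : R) ^ m * ∑ s : Equiv.Perm (Fin m), ∏ j, a (s j) j) := by
        rw [← mul_assoc, h5, one_mul]
    _ = 0 := by rw [h1, mul_zero]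

end Pool.Agent.H255R.VZ
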