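import Pool.Agent.H255R.VZ.Det
import Pool.Agent.H255R.VZ.Ryser
import Pool.Agent.H255R.VZ.Defs
import Pool.Agent.H255R.PC.Base

/-!
# The conjecture of Voisin for products of two curves
-/

open CategoryTheory AlgebraicGeometry

universe u v w

namespace Pool.Agent.H255R.VZ

section multilinear

open Finset Equiv

variable {n : ℕ} {R : Type*} [CommRing R] [Algebra ℚ R] {N : Type*} [AddCommGroup N] [Module ℚ N]

/-- The alternating sum as a multilinear map. -/
def altM (φ : Fin n → N →ₗ[ℚ] R) : MultilinearMap ℚ (fun _ : Fin n => N) R :=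
  ∑ σ : Perm (Fin n), ((Perm.sign σ : ℤˣ) : ℤ) •
    (MultilinearMap.mkPiAlgebra ℚ (Fin n) R).compLinearMap (fun j => φ (σ⁻¹ j))

lemma altM_apply (φ : Fin n → N →ₗ[ℚ] R) (a : Fin n → N) :
    altM φ a = ∑ σ : Perm (Fin n), ((Perm.sign σ : ℤˣ) : ℤ) • ∏ i, φ i (a (σ i)) := by
  rw [altM, MultilinearMap.sum_apply]
  refine sum_congr rfl fun σ _ => ?_
  rw [MultilinearMap.smul_apply, MultilinearMap.compLinearMap_apply,
    MultilinearMap.mkPiAlgebra_apply]
  congr 1
  rw [← Equiv.prod_comp σ]
  refine prod_congr rfl fun i _ => ?_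
  have : σ⁻¹ (σ i) = i := σ.symm_apply_apply i
  rw [this]

/-- A multilinear map which vanishes on a set vanishes on its span. -/
lemma multilinear_span {ι : Type*} [Fintype ι] [DecidableEq ι] {N' : Type*} [AddCommGroup N']
    [Module ℚ N'] (μ : MultilinearMap ℚ (fun _ : ι => N) N') {G : Set N}
    (h : ∀ a : ι → N, (∀ i, a i ∈ G) → μ a = 0) {a : ι → N}
    (ha : ∀ i, a i ∈ Submodule.span ℚ G) : μ a = 0 := by
  have key : ∀ (s : Finset ι) (a : ι → N), (∀ i, a i ∈ Submodule.span ℚ G) →
      (∀ i ∉ s, a i ∈ G) → μ a = 0 := by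
    intro s
    induction s using Finset.induction_on with
    | empty => exact fun a _ h2 => h a fun i => h2 i (notMem_empty i)
    | insert i s _ ih =>
      intro a h1 h2
      have h3 : ∀ x ∈ Submodule.span ℚ G, μ (Function.update a i x) = 0 := by
        intro x hx
        induction hx using Submodule.span_induction with
        | mem x hx =>
          refine ih _ ?_ ?_
          · intro j
            by_cases hj : j = i
            · subst hj; rw [Function.update_self]; exact Submodule.subset_span hx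
            · rw [Function.update_of_ne hj]; exact h1 j
          · intro j hj
            by_cases hji : j = i
            · subst hji; rw [Function.update_self]; exact hx
            · rw [Function.update_of_ne hji]
              exact h2 j (by rw [mem_insert, not_or]; exact ⟨hji, hj⟩)
        | zero => exact μ.map_update_zero a i
        | add x y _ _ hx hy => rw [μ.map_update_add, hx, hy, add_zero]
        | smul c x _ hx => rw [μ.map_update_smul, hx, smul_zero]
      have h4 := h3 (a i) (h1 i)
      rwa [Function.update_eq_self] at h4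
  exact key univ a ha fun i hi => absurd (mem_univ i) hi

end multilinear

open Pool.Agent.H914 Pool.Agent.H914.VarClass Pool.Agent.H914.VarClass.Obj Pool.Agent.W492.BB
  Pool.Agent.W550.Corr Pool.Agent.TH133 Pool.Agent.Y148.BB Pool.Agent.Y152.AS
  Pool.Agent.H255R.PC

set_option linter.unusedSectionVars false

variable {k : Type u} [Field k] {𝒱 : VarClass k} {C : TheoryData.{u, v, 0} 𝒱 ℚ}
  [hC : IsChowProj C] {X Y Z S T V W : 𝒱.Obj}

/-- The Chow ring as a commutative ring. -/
@[reducible] noncomputable def crg (C : TheoryData.{u, v, 0} 𝒱 ℚ) [IsChowProj C] (P : 𝒱.Obj) :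
    CommRing (C.A P) := { C.ring P with mul_comm := ch_comm C }

lemma altSum_eq {P S : 𝒱.Obj} {n : ℕ} (f : Fin n → (P ⟶ S)) (a : Fin n → C.A S) :
    letI := crg C P
    altSum C f a = altM (fun i => (C.pull (f i)).toLinearMap) a := by
  letI := crg C P
  rw [altM_apply, altSum]
  refine Finset.sum_congr rfl fun σ _ => ?_
  congr 1
  exact List.prod_ofFn

lemma symSum_eq {P S : 𝒱.Obj} {n : ℕ} (f : Fin n → (P ⟶ S)) (a : Fin n → C.A S) :
    letI := crg C P
    symSum C f a = ∑ σ : Equiv.Perm (Fin n), ∏ i, C.pull (f i) (a (σ i)) := by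
  letI := crg C P
  rw [symSum]
  refine Finset.sum_congr rfl fun σ _ => ?_
  exact List.prod_ofFn

lemma pull_sum {B : 𝒱.Obj} [GroupLaw B] {E : C.A B}
    (hE : ∀ (P : 𝒱.Obj) (x y : P ⟶ B), C.up (x + y) E = C.up x E + C.up y E) {P : 𝒱.Obj}
    {m : ℕ} (F : Fin m → (P ⟶ B)) (I : Finset (Fin m)) :
    C.pull (∑ k ∈ I, F k) E = ∑ k ∈ I, C.pull (F k) E := by
  induction I using Finset.induction_on with
  | empty =>
    have h := hE P 0 0
    rw [add_zero] at h
    rw [Finset.sum_empty, Finset.sum_empty]
    exact left_eq_add.1 h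
  | insert i I hi ih =>
    rw [Finset.sum_insert hi, Finset.sum_insert hi, ← ih]
    exact hE P _ _

lemma prod_mem' {B : 𝒱.Obj} {m : ℕ} (E : Fin m → C.A B) (hE : ∀ j, E j ∈ C.gr B 1) :
    letI := crg C B
    ∏ j, E j ∈ C.gr B m := by
  letI := crg C B
  induction m with
  | zero =>
    rw [Finset.univ_eq_empty, Finset.prod_empty]
    exact C.one_mem B
  | succ m ih =>
    rw [Fin.prod_univ_castSucc]
    exact gr_congr (by push_cast; ring) (C.mul_mem (ih (fun j => E j.castSucc) fun j => hE _)
      (hE (Fin.last m)))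

/-- The symmetrised products vanish, by the polarisation of `∏_j x^* E_j = x^* ∏_j E_j = 0`. -/
theorem symVanish_of {X : 𝒱.Obj} {A : Set (C.A X)} {g : ℕ} (h : HasAlbanese C X A g) :
    SymVanish C X A g := by
  obtain ⟨B, hB, α, hdim, hA⟩ := h
  intro P f D hD
  letI := crg C P
  letI := crg C B
  choose E hE1 hE2 hE3 using fun j => hA (D j) (hD j)
  rw [symSum_eq]
  have h1 := ryser (R := C.A P) (fun k j => C.pull (f k ≫ α) (E j)) ?_
  · rw [← Equiv.sum_comp (Equiv.inv (Equiv.Perm (Fin (g + 1))))] at h1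
    rw [← h1]
    refine Finset.sum_congr rfl fun σ _ => ?_
    rw [← Equiv.prod_comp σ (fun j => C.pull (f (((Equiv.inv (Equiv.Perm (Fin (g + 1)))) σ) j) ≫ α)
      (E j))]
    refine Finset.prod_congr rfl fun i _ => ?_
    have e1 : ((Equiv.inv (Equiv.Perm (Fin (g + 1)))) σ) (σ i) = i := σ.symm_apply_apply i
    rw [e1, hE3 (σ i), C.pull_comp]
  · intro I
    have e1 : ∀ j, ∑ k ∈ I, C.pull (f k ≫ α) (E j) =
        C.pull (∑ k ∈ I, (f k ≫ α)) (E j) := fun j => (pull_sum (hE2 j) _ I).symm
    rw [Finset.prod_congr rfl fun j _ => e1 j, ← map_prod]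
    have e2 : ∏ j, E j = 0 := hC.gr_top _ _ _ (prod_mem' E hE1) (by rw [hdim]; push_cast; omega)
    rw [e2, map_zero]

/-- The general vanishing theorem. -/
theorem gen {ι : Type} [Fintype ι] [DecidableEq ι] {q : ι → ℕ} {A : ι → Set (C.A X)}
    (hA : ∀ t, SymVanish C X (A t) (q t)) (E : Set (Sym2 ι)) [DecidablePred (· ∈ E)]
    {P : 𝒱.Obj} {n : ℕ} (f : Fin n → (P ⟶ X))
    (hn : (Finset.univ.filter (fun e : Sym2 (Σ t, Fin (q t)) =>
      ¬e.IsDiag ∧ e.map Sigma.fst ∈ E)).card < n) (a : Fin n → C.A X)
    (ha : ∀ j, a j ∈ Submodule.span ℚ {z : C.A X | ∃ s t, s(s, t) ∈ E ∧ ∃ D ∈ A s, ∃ D' ∈ A t,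
      z = D * D'}) : altSum C f a = 0 := by
  letI := crg C P
  rw [altSum_eq]
  refine multilinear_span _ (G := {z : C.A X | ∃ s t, s(s, t) ∈ E ∧ ∃ D ∈ A s, ∃ D' ∈ A t,
      z = D * D'}) ?_ ha
  intro b hb
  rw [altM_apply]
  choose s t hst D hD D' hD' hab using hb
  set Y : Fin n → Fin n × Bool → C.A P := fun i l =>
    C.pull (f i) (if l.2 = false then D l.1 else D' l.1) with hY
  have key := det_zero (R := C.A P) (n := n) (fun l => if l.2 = false then s l.1 else t l.1) q Y
    ?_ (Finset.univ.filter (fun e : Sym2 (Σ t, Fin (q t)) =>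
      ¬e.IsDiag ∧ e.map Sigma.fst ∈ E)) ?_ hn
  · rw [← key]
    refine Finset.sum_congr rfl fun σ _ => ?_
    congr 1
    refine Finset.prod_congr rfl fun i _ => ?_
    show C.pull (f i) (b (σ i)) = C.pull (f i) (D (σ i)) * C.pull (f i) (D' (σ i))
    rw [hab, map_mul]
  · intro t' lab ps hlab
    have h1 := hA t' P (fun j => f (ps j)) (fun j => if (lab j).2 = false then D (lab j).1 else
      D' (lab j).1) (fun j => by
        have h2 := hlab j
        by_cases hj : (lab j).2 = false
        · rw [if_pos hj] at h2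
          rw [if_pos hj, ← h2]; exact hD _
        · rw [if_neg hj] at h2
          rw [if_neg hj, ← h2]; exact hD' _)
    rw [symSum_eq] at h1
    exact h1
  · intro i b b' hbb
    rw [Finset.mem_filter]
    exact ⟨Finset.mem_univ _, hbb, hst i⟩

section points

variable {pt : ∀ X : 𝒱.Obj, Set (C.A X)} (hp : IsPoints C pt)

include hp

/-- The Albanese-trivial zero-cycles on a product of two curves. -/
lemma albTrivial_prod (hV : V.dim = 1) (hW : W.dim = 1) {z : C.A (V.prod W)}
    (hz : AlbTrivial C z) : z ∈ Submodule.span ℚ {z | ∃ α ∈ degZero C V, ∃ β ∈ degZero C W,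
      z = C.ext α β} := by
  obtain ⟨hz0, hz⟩ := hz
  obtain ⟨o, ho, ho1⟩ := exists_hd_one (C := C) V
  obtain ⟨o', ho', ho1'⟩ := exists_hd_one (C := C) W
  set G := Submodule.span ℚ {z | ∃ α ∈ degZero C V, ∃ β ∈ degZero C W, z = C.ext α β} with hG
  have hmV : ∀ {a : C.A V}, a ∈ C.gr V V.dim → a ∈ C.gr V 1 := fun h => by
    rwa [hV, Nat.cast_one] at h
  have hmW : ∀ {a : C.A W}, a ∈ C.gr W W.dim → a ∈ C.gr W 1 := fun h => by
    rwa [hW, Nat.cast_one] at h
  have key : G.mkQ (z - C.ext (C.push (fst V W) z) o' - C.ext o (C.push (snd V W) z)) = 0 := by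
    have h1 := hp.zero_of (G.mkQ ∘ₗ (LinearMap.id - ((extB C V W).flip o') ∘ₗ C.push (fst V W) -
      (extB C V W o) ∘ₗ C.push (snd V W))) ?_ hz.deg hz0
    · exact h1
    intro x hx x' hx'
    have h2 : ∀ x ∈ pt (V.prod W), G.mkQ (x - C.ext (C.push (fst V W) x) o' -
        C.ext o (C.push (snd V W) x)) = G.mkQ (- C.ext o o') := by
      intro x hx
      obtain ⟨t, ht, w, hw, rfl⟩ := hp.prod V W x hx
      have h3 : C.ext (t - o) (w - o') ∈ G := Submodule.subset_span
        ⟨t - o, ⟨hmV (Submodule.sub_mem _ (hp.mem ht) ho), hd_sub_self (hp.hd ht) ho1⟩,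
          w - o', ⟨hmW (Submodule.sub_mem _ (hp.mem hw) ho'), hd_sub_self (hp.hd hw) ho1'⟩, rfl⟩
      rw [push_fst_ext t (hp.hd hw), push_snd_ext (hp.hd ht) w, one_smul, one_smul]
      rw [← sub_eq_zero, ← map_sub, Submodule.mkQ_apply, Submodule.Quotient.mk_eq_zero]
      have e1 : C.ext t w - C.ext t o' - C.ext o w - -C.ext o o' = C.ext (t - o) (w - o') := by
        rw [ext_sub_left, ext_sub_right, ext_sub_right]
        abel
      rw [e1]
      exact h3
    have h4 : G.mkQ (x - C.ext (C.push (fst V W) x) o' - C.ext o (C.push (snd V W) x)) -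
        G.mkQ (x' - C.ext (C.push (fst V W) x') o' - C.ext o (C.push (snd V W) x')) = 0 := by
      rw [h2 x hx, h2 x' hx', sub_self]
    rw [map_sub]
    exact h4
  have hgr : ∀ {X Y : 𝒱.Obj} (f : X ⟶ Y), C.graph f ∈ C.gr (X.prod Y) Y.dim := by
    intro X Y f
    have h := C.push_mem (Obj.lift (𝟙 X) f) (C.one_mem X)
    have e1 : (0 : ℤ) + 1 * (((X.prod Y).dim : ℤ) - (X.dim : ℤ)) = Y.dim := by
      rw [dim_prod]; push_cast; ring
    rwa [e1] at h
  have h1 : C.push (fst V W) z = 0 := by
    rw [← C.act_graph]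
    exact hz.act_eq_zero V _ (gr_congr (by rw [hV, Nat.cast_one]) (hgr _))
  have h2 : C.push (snd V W) z = 0 := by
    rw [← C.act_graph]
    exact hz.act_eq_zero W _ (gr_congr (by rw [hW, Nat.cast_one]) (hgr _))
  rw [h1, h2, C.ext_zero_left, C.ext_zero_right, sub_zero, sub_zero, Submodule.mkQ_apply,
    Submodule.Quotient.mk_eq_zero] at key
  exact key

/-- The invariant Albanese-trivial zero-cycles on a product of two curves. -/
lemma invariant_mem (hV : V.dim = 1) (hW : W.dim = 1) {m : ℕ} {σ : Fin m → (V ⟶ V)}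
    {τ : Fin m → (W ⟶ W)} (hσ : IsInvolutions σ) (hτ : IsInvolutions τ) {y : C.A (V.prod W)}
    (hy : AlbTrivial C y) (hinv : ∀ i, C.up (prodMap (σ i) (τ i)) y = y) :
    y ∈ Submodule.span ℚ {z | ∃ χ, ∃ α ∈ eigen C σ χ, ∃ β ∈ eigen C τ χ, z = C.ext α β} := by
  -- pull-backs of classes of degree zero under the involutions
  have hdeg : ∀ {Y : 𝒱.Obj} (f : Y ⟶ Y), f ≫ f = 𝟙 Y → ∀ {D : C.A Y}, D ∈ degZero C Y →
      C.pull f D ∈ degZero C Y := by
    intro Y f hf D hD
    refine ⟨C.pull_mem f hD.1, ?_⟩
    have h1 : C.push f 1 = (1 : ℚ) • (1 : C.A Y) := by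
      rw [one_smul]
      exact hC.push_one f f hf hf
    have h2 := hd_pull h1 hD.2
    rwa [mul_zero] at h2
  have hadd : ∀ {Y : 𝒱.Obj} {D D' : C.A Y} (c : ℚ), D ∈ degZero C Y → D' ∈ degZero C Y →
      (1 / 2 : ℚ) • (D + c • D') ∈ degZero C Y := by
    intro Y D D' c hD hD'
    refine ⟨Submodule.smul_mem _ _ (Submodule.add_mem _ hD.1 (Submodule.smul_mem _ _ hD'.1)), ?_⟩
    have h1 := hd_smul (1 / 2 : ℚ) (hd_add hD.2 (hd_smul c hD'.2))
    rwa [mul_zero, add_zero, mul_zero] at h1
  have key : ∀ k ≤ m, y ∈ Submodule.span ℚ {z : C.A (V.prod W) | ∃ χ : Fin m → Bool,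
      ∃ α ∈ degZero C V, ∃ β ∈ degZero C W, (∀ i : Fin m, (i : ℕ) < k →
        C.pull (σ i) α = (if χ i then -α else α) ∧ C.pull (τ i) β = (if χ i then -β else β)) ∧
        z = C.ext α β} := by
    intro k
    induction k with
    | zero =>
      intro _
      refine Submodule.span_mono ?_ (albTrivial_prod hp hV hW hy)
      rintro z ⟨α, hα, β, hβ, rfl⟩
      exact ⟨fun _ => false, α, hα, β, hβ, fun i hi => absurd hi (Nat.not_lt_zero _), rfl⟩
    | succ k ih =>
      intro hk
      have h1 := ih (by omega)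
      set j : Fin m := ⟨k, by omega⟩ with hj
      set G' := Submodule.span ℚ {z : C.A (V.prod W) | ∃ χ : Fin m → Bool,
        ∃ α ∈ degZero C V, ∃ β ∈ degZero C W, (∀ i : Fin m, (i : ℕ) < k + 1 →
        C.pull (σ i) α = (if χ i then -α else α) ∧ C.pull (τ i) β = (if χ i then -β else β)) ∧
        z = C.ext α β} with hG'
      have h2 : ∀ z ∈ Submodule.span ℚ {z : C.A (V.prod W) | ∃ χ : Fin m → Bool,
          ∃ α ∈ degZero C V, ∃ β ∈ degZero C W, (∀ i : Fin m, (i : ℕ) < k →
          C.pull (σ i) α = (if χ i then -α else α) ∧ C.pull (τ i) β = (if χ i then -β else β)) ∧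
          z = C.ext α β}, (1 / 2 : ℚ) • (z + C.pull (prodMap (σ j) (τ j)) z) ∈ G' := by
        intro z hz
        induction hz using Submodule.span_induction with
        | mem z hz =>
          obtain ⟨χ, α, hα, β, hβ, h3, rfl⟩ := hz
          have hα' := hdeg (σ j) (hσ.invol j) hα
          have hβ' := hdeg (τ j) (hτ.invol j) hβ
          -- eigenvectors
          have e0 : ∀ (c : ℚ), c * c = 1 →
              C.pull (σ j) ((1 / 2 : ℚ) • (α + c • C.pull (σ j) α)) =
              c • ((1 / 2 : ℚ) • (α + c • C.pull (σ j) α)) := by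
            intro c hc
            rw [map_smul, map_add, map_smul, ← C.pull_comp, hσ.invol, C.pull_id]
            generalize C.pull (σ j) α = x
            have h4 : c • ((1 / 2 : ℚ) • (α + c • x)) = (1 / 2 : ℚ) • (c • α + (c * c) • x) := by
              module
            rw [h4, hc, one_smul, add_comm]
          have e0' : ∀ (c : ℚ), c * c = 1 →
              C.pull (τ j) ((1 / 2 : ℚ) • (β + c • C.pull (τ j) β)) =
              c • ((1 / 2 : ℚ) • (β + c • C.pull (τ j) β)) := by
            intro c hc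
            rw [map_smul, map_add, map_smul, ← C.pull_comp, hτ.invol, C.pull_id]
            generalize C.pull (τ j) β = x
            have h4 : c • ((1 / 2 : ℚ) • (β + c • x)) = (1 / 2 : ℚ) • (c • β + (c * c) • x) := by
              module
            rw [h4, hc, one_smul, add_comm]
          have e1 : ∀ (c : ℚ) (i : Fin m), (i : ℕ) < k →
              C.pull (σ i) ((1 / 2 : ℚ) • (α + c • C.pull (σ j) α)) =
              if χ i then -((1 / 2 : ℚ) • (α + c • C.pull (σ j) α)) else
                (1 / 2 : ℚ) • (α + c • C.pull (σ j) α) := by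
            intro c i hi
            have h4 : C.pull (σ i) (C.pull (σ j) α) = C.pull (σ j) (C.pull (σ i) α) := by
              rw [← C.pull_comp, ← C.pull_comp, hσ.comm]
            rw [map_smul, map_add, map_smul, h4, (h3 i hi).1]
            cases χ i
            · simp
            · simp only [if_true, map_neg, smul_neg, ← neg_add]
          have e1' : ∀ (c : ℚ) (i : Fin m), (i : ℕ) < k →
              C.pull (τ i) ((1 / 2 : ℚ) • (β + c • C.pull (τ j) β)) =
              if χ i then -((1 / 2 : ℚ) • (β + c • C.pull (τ j) β)) else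
                (1 / 2 : ℚ) • (β + c • C.pull (τ j) β) := by
            intro c i hi
            have h4 : C.pull (τ i) (C.pull (τ j) β) = C.pull (τ j) (C.pull (τ i) β) := by
              rw [← C.pull_comp, ← C.pull_comp, hτ.comm]
            rw [map_smul, map_add, map_smul, h4, (h3 i hi).2]
            cases χ i
            · simp
            · simp only [if_true, map_neg, smul_neg, ← neg_add]
          have hmem : ∀ (c : ℚ) (v : Bool), c = (if v then -1 else 1) →
              C.ext ((1 / 2 : ℚ) • (α + c • C.pull (σ j) α))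
                ((1 / 2 : ℚ) • (β + c • C.pull (τ j) β)) ∈ G' := by
            intro c v hc
            have hcc : c * c = 1 := by rw [hc]; cases v <;> norm_num
            refine Submodule.subset_span ⟨Function.update χ j v, _, hadd c hα hα', _,
              hadd c hβ hβ', ?_, rfl⟩
            intro i hi
            by_cases hij : i = j
            · subst hij
              rw [Function.update_self, e0 c hcc, e0' c hcc]
              cases v
              · have hc1 : c = 1 := by simpa using hc
                subst hc1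
                simp
              · have hc1 : c = -1 := by simpa using hc
                subst hc1
                exact ⟨by rw [if_pos rfl]; exact neg_one_smul ℚ _,
                  by rw [if_pos rfl]; exact neg_one_smul ℚ _⟩
            · have hik : (i : ℕ) < k := by
                have : (i : ℕ) ≠ k := fun h => hij (Fin.ext h)
                omega
              rw [Function.update_of_ne hij]
              exact ⟨e1 c i hik, e1' c i hik⟩
          have h5 := Submodule.add_mem _ (hmem 1 false (by simp)) (hmem (-1) true (by simp))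
          have h6 : (1 / 2 : ℚ) • (C.ext α β + C.pull (prodMap (σ j) (τ j)) (C.ext α β)) =
              C.ext ((1 / 2 : ℚ) • (α + (1 : ℚ) • C.pull (σ j) α))
                ((1 / 2 : ℚ) • (β + (1 : ℚ) • C.pull (τ j) β)) +
              C.ext ((1 / 2 : ℚ) • (α + (-1 : ℚ) • C.pull (σ j) α))
                ((1 / 2 : ℚ) • (β + (-1 : ℚ) • C.pull (τ j) β)) := by
            rw [pull_ext]
            simp only [← extB_apply, map_smul, map_add, LinearMap.smul_apply, LinearMap.add_apply,
              smul_add, smul_smul]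
            module
          rw [h6]
          exact h5
        | zero => simp
        | add z z' _ _ hz hz' =>
          have h3 := Submodule.add_mem _ hz hz'
          have h4 : (1 / 2 : ℚ) • (z + z' + C.pull (prodMap (σ j) (τ j)) (z + z')) =
              (1 / 2 : ℚ) • (z + C.pull (prodMap (σ j) (τ j)) z) +
                (1 / 2 : ℚ) • (z' + C.pull (prodMap (σ j) (τ j)) z') := by
            rw [map_add]; module
          rwa [h4]
        | smul c z _ hz =>
          have h3 := Submodule.smul_mem _ c hz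
          have h4 : (1 / 2 : ℚ) • (c • z + C.pull (prodMap (σ j) (τ j)) (c • z)) =
              c • ((1 / 2 : ℚ) • (z + C.pull (prodMap (σ j) (τ j)) z)) := by
            rw [map_smul]; module
          rwa [h4]
      have h3 := h2 y h1
      have h4 : C.pull (prodMap (σ j) (τ j)) y = y := hinv j
      rw [h4] at h3
      have h5 : (1 / 2 : ℚ) • (y + y) = y := by module
      rwa [h5] at h3
  refine Submodule.span_mono ?_ (key m le_rfl)
  rintro z ⟨χ, α, hα, β, hβ, h1, rfl⟩
  exact ⟨χ, α, ⟨hα, fun i => (h1 i i.2).1⟩, β, ⟨hβ, fun i => (h1 i i.2).2⟩, rfl⟩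

end points

end Pool.Agent.H255R.VZ
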