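import Pool.Agent.H255R.VZ.Geo

/-!
# The conjecture of Voisin: main results
-/

open CategoryTheory AlgebraicGeometry

universe u v w

namespace Pool.Agent.H255R.VZ

open Pool.Agent.H914 Pool.Agent.H914.VarClass Pool.Agent.H914.VarClass.Obj Pool.Agent.W492.BB
  Pool.Agent.W550.Corr Pool.Agent.TH133 Pool.Agent.Y148.BB Pool.Agent.Y152.AS
  Pool.Agent.H255R.PC

set_option linter.unusedSectionVars false

variable {k : Type u} [Field k] {𝒱 : VarClass k} {C : TheoryData.{u, v, 0} 𝒱 ℚ}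
  [hC : IsChowProj C] {X Y Z S T V W : 𝒱.Obj}

section powers

omit hC in
/-- The power of a morphism. -/
noncomputable def pwMap (π : X ⟶ S) : (n : ℕ) → (pw X n ⟶ pw S n)
  | 0 => π
  | n + 1 => prodMap π (pwMap π n)

omit hC in
lemma pwMap_pr (π : X ⟶ S) : ∀ (n : ℕ) (i : Fin (n + 1)),
    pwMap π n ≫ pr S n i = pr X n i ≫ π
  | 0, _ => by
    show π ≫ 𝟙 S = 𝟙 X ≫ π
    rw [Category.comp_id, Category.id_comp]
  | n + 1, i => by
    refine Fin.cases ?_ (fun i => ?_) i
    · show prodMap π (pwMap π n) ≫ fst S (pw S n) = fst X (pw X n) ≫ π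
      rw [prodMap_fst]
    · show prodMap π (pwMap π n) ≫ snd S (pw S n) ≫ pr S n i =
        (snd X (pw X n) ≫ pr X n i) ≫ π
      rw [← Category.assoc, prodMap_snd, Category.assoc, pwMap_pr π n i, Category.assoc]

lemma push_pwMap {π : X ⟶ S} {d : ℚ} (hπ : C.push π 1 = d • (1 : C.A S)) : ∀ n : ℕ,
    C.push (pwMap π n) 1 = d ^ (n + 1) • (1 : C.A (pw S n))
  | 0 => by
    rw [zero_add, pow_one]
    exact hπ
  | n + 1 => by
    have h1 : (1 : C.A (X.prod (pw X n))) = C.ext 1 1 := by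
      rw [TheoryData.ext, map_one, map_one, one_mul]
    show C.push (prodMap π (pwMap π n)) (1 : C.A (X.prod (pw X n))) = _
    rw [h1, push_ext, hπ, push_pwMap hπ n, ← extB_apply, map_smul, map_smul,
      LinearMap.smul_apply, smul_smul, extB_apply]
    have h2 : (1 : C.A (S.prod (pw S n))) = C.ext 1 1 := by
      rw [TheoryData.ext, map_one, map_one, one_mul]
    show _ = d ^ (n + 1 + 1) • (1 : C.A (S.prod (pw S n)))
    rw [h2]
    congr 1
    ring

end powers

lemma altSum_pull {P P' : 𝒱.Obj} {n : ℕ} (r : P' ⟶ P) (f : Fin n → (P ⟶ S)) (a : Fin n → C.A S) :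
    C.pull r (altSum C f a) = altSum C (fun i => r ≫ f i) a := by
  rw [altSum, altSum, map_sum]
  refine Finset.sum_congr rfl fun σ _ => ?_
  rw [map_zsmul, map_list_prod, List.map_ofFn]
  congr 2
  refine congrArg List.ofFn (funext fun i => ?_)
  exact (C.pull_comp r (f i) (a (σ i))).symm

lemma altSum_comp {P : 𝒱.Obj} {n : ℕ} (f : Fin n → (P ⟶ X)) (π : X ⟶ S) (a : Fin n → C.A S) :
    altSum C (fun i => f i ≫ π) a = altSum C f (fun j => C.pull π (a j)) := by
  rw [altSum, altSum]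
  refine Finset.sum_congr rfl fun σ _ => ?_
  congr 2
  refine congrArg List.ofFn (funext fun i => ?_)
  exact C.pull_comp (f i) π (a (σ i))

/-- The assertion descends along morphisms of non-zero degree. -/
lemma descend {π : X ⟶ S} {d : ℚ} (hd : d ≠ 0) (hπ : C.push π 1 = d • (1 : C.A S)) {n : ℕ}
    {a : Fin (n + 1) → C.A S} (h : altSum C (pr X n) (fun j => C.pull π (a j)) = 0) :
    altSum C (pr S n) a = 0 := by
  have h1 : C.pull (pwMap π n) (altSum C (pr S n) a) = 0 := by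
    rw [altSum_pull, ← h, ← altSum_comp]
    congr 1
    exact funext fun i => pwMap_pr π n i
  have h2 := C.proj_right (pwMap π n) 1 (altSum C (pr S n) a)
  rw [one_mul, h1, map_zero, push_pwMap hπ, smul_mul_assoc, one_mul] at h2
  have h3 : d ^ (n + 1) ≠ 0 := pow_ne_zero _ hd
  rw [← one_smul ℚ (altSum C (pr S n) a), ← inv_mul_cancel₀ h3, mul_smul, ← h2, smul_zero]

omit hC in
lemma HasAlbanese.pull' [hC : IsChowProj C] {A : Set (C.A V)} {g : ℕ} (h : HasAlbanese C V A g)
    (f : X ⟶ V) : HasAlbanese C X {D | ∃ D' ∈ A, D = C.pull f D'} g := by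
  obtain ⟨B, hB, α, hd, hA⟩ := h
  refine ⟨B, hB, f ≫ α, hd, ?_⟩
  rintro D ⟨D', hD', rfl⟩
  obtain ⟨E, h1, h2, h3⟩ := hA D' hD'
  refine ⟨E, h1, h2, ?_⟩
  rw [h3]
  exact (C.pull_comp f α E).symm

/-- The dimensions. -/
def qdim {m : ℕ} (g h : (Fin m → Bool) → ℕ) : (Fin m → Bool) × Bool → ℕ
  | (χ, false) => g χ
  | (χ, true) => h χ

/-- The admissible pairs of types. -/
def pairs (m : ℕ) : Set (Sym2 ((Fin m → Bool) × Bool)) :=
  {e | ∃ χ, e = s((χ, false), (χ, true))}

open Classical in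
lemma card_pairs {m : ℕ} (g h : (Fin m → Bool) → ℕ) :
    (Finset.univ.filter (fun e : Sym2 (Σ t, Fin (qdim g h t)) =>
      ¬e.IsDiag ∧ e.map Sigma.fst ∈ pairs m)).card ≤ ∑ χ, g χ * h χ := by
  have h1 : (Finset.univ.filter (fun e : Sym2 (Σ t, Fin (qdim g h t)) =>
      ¬e.IsDiag ∧ e.map Sigma.fst ∈ pairs m)) ⊆ (Finset.univ : Finset (Σ χ : Fin m → Bool,
        Fin (g χ) × Fin (h χ))).image (fun p =>
          s((⟨(p.1, false), p.2.1⟩ : Σ t, Fin (qdim g h t)), ⟨(p.1, true), p.2.2⟩)) := by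
    intro e he
    rw [Finset.mem_filter] at he
    obtain ⟨_, _, χ, hχ⟩ := he
    rw [Finset.mem_image]
    induction e using Sym2.ind with
    | _ u v =>
      obtain ⟨t, x⟩ := u
      obtain ⟨t', y⟩ := v
      rw [Sym2.map_mk] at hχ
      rcases Sym2.eq_iff.1 hχ with ⟨h2, h3⟩ | ⟨h2, h3⟩
      · simp only at h2 h3
        subst h2 h3
        exact ⟨⟨χ, (x, y)⟩, Finset.mem_univ _, rfl⟩
      · simp only at h2 h3
        subst h2 h3
        exact ⟨⟨χ, (y, x)⟩, Finset.mem_univ _, Sym2.eq_swap⟩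
  refine (Finset.card_le_card h1).trans (Finset.card_image_le.trans ?_)
  rw [Finset.card_univ, Fintype.card_sigma]
  refine Finset.sum_le_sum fun χ _ => ?_
  rw [Fintype.card_prod, Fintype.card_fin, Fintype.card_fin]

section points

variable {pt : ∀ X : 𝒱.Obj, Set (C.A X)} (hp : IsPoints C pt)

include hp

open Classical in
/-- Quotients of products of two curves. -/
theorem main_quot (hV : V.dim = 1) (hW : W.dim = 1) {m : ℕ} {σ : Fin m → (V ⟶ V)}
    {τ : Fin m → (W ⟶ W)} (hσ : IsInvolutions σ) (hτ : IsInvolutions τ)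
    {g h : (Fin m → Bool) → ℕ} (hg : ∀ χ, HasAlbanese C V (eigen C σ χ) (g χ))
    (hh : ∀ χ, HasAlbanese C W (eigen C τ χ) (h χ)) (hS : IsQuotientModel C σ τ S) :
    VoisinHolds C S (∑ χ, g χ * h χ) := by
  obtain ⟨X, b, π, d, hd, hπ, hz⟩ := hS
  intro n a hn ha
  refine descend hd hπ ?_
  set A : (Fin m → Bool) × Bool → Set (C.A X) := fun t =>
    match t with
    | (χ, false) => {D | ∃ D' ∈ eigen C σ χ, D = C.pull (b ≫ fst V W) D'}
    | (χ, true) => {D | ∃ D' ∈ eigen C τ χ, D = C.pull (b ≫ snd V W) D'} with hA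
  refine gen (q := qdim g h) (A := A) ?_ (pairs m) (pr X n)
    (lt_of_le_of_lt (card_pairs g h) hn) _ ?_
  · rintro ⟨χ, _ | _⟩
    · exact symVanish_of ((hg χ).pull' _)
    · exact symVanish_of ((hh χ).pull' _)
  · intro j
    obtain ⟨y, hy, hinv, hpb⟩ := hz (a j) (ha j)
    have h1 := invariant_mem hp hV hW hσ hτ hy hinv
    have h2 : C.pull π (a j) = C.pull b y := hpb
    rw [h2]
    clear hpb h2 hy hinv
    induction h1 using Submodule.span_induction with
    | mem z hz =>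
      obtain ⟨χ, α, hα, β, hβ, rfl⟩ := hz
      refine Submodule.subset_span ⟨(χ, false), (χ, true), ⟨χ, rfl⟩, C.pull (b ≫ fst V W) α,
        ⟨α, hα, rfl⟩, C.pull (b ≫ snd V W) β, ⟨β, hβ, rfl⟩, ?_⟩
      rw [TheoryData.ext, map_mul, ← C.pull_comp, ← C.pull_comp]
    | zero => rw [map_zero]; exact Submodule.zero_mem _
    | add z z' _ _ hz hz' => rw [map_add]; exact Submodule.add_mem _ hz hz'
    | smul c z _ hz => rw [map_smul]; exact Submodule.smul_mem _ c hz

/-- Products of two curves. -/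
theorem main_prod (hV : V.dim = 1) (hW : W.dim = 1) {g h : ℕ}
    (hg : HasAlbanese C V (degZero C V) g) (hh : HasAlbanese C W (degZero C W) h) :
    VoisinHolds C (V.prod W) (g * h) := by
  have h1 := main_quot (S := V.prod W) hp hV hW (m := 0) (σ := Fin.elim0) (τ := Fin.elim0)
    ⟨fun i => i.elim0, fun i => i.elim0⟩ ⟨fun i => i.elim0, fun i => i.elim0⟩
    (g := fun _ => g) (h := fun _ => h) ?_ ?_ ?_
  · simpa using h1
  · intro χ
    have : eigen C (Fin.elim0 : Fin 0 → (V ⟶ V)) χ = degZero C V := by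
      ext D
      exact ⟨fun h => h.1, fun h => ⟨h, fun i => i.elim0⟩⟩
    rw [this]
    exact hg
  · intro χ
    have : eigen C (Fin.elim0 : Fin 0 → (W ⟶ W)) χ = degZero C W := by
      ext D
      exact ⟨fun h => h.1, fun h => ⟨h, fun i => i.elim0⟩⟩
    rw [this]
    exact hh
  · refine ⟨V.prod W, 𝟙 _, 𝟙 _, 1, one_ne_zero, ?_, fun z hz => ⟨z, hz, fun i => i.elim0, rfl⟩⟩
    rw [one_smul]
    exact C.push_id 1

end points

open Classical in
/-- Surfaces whose Albanese kernel is generated by products of algebraically trivial divisor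
classes. -/
theorem main_pic {q : ℕ} (hS : HasAlbanese C S (picZero C S) q)
    (hgen : ∀ z : C.A S, AlbTrivial C z →
      z ∈ Submodule.span ℚ {z | ∃ D ∈ picZero C S, ∃ D' ∈ picZero C S, z = D * D'}) :
    VoisinHolds C S (q.choose 2) := by
  intro n a hn ha
  refine gen (ι := Unit) (q := fun _ => q) (A := fun _ => picZero C S)
    (fun _ => symVanish_of hS) Set.univ (pr S n) ?_ a ?_
  · have h1 : (Finset.univ.filter (fun e : Sym2 (Σ _ : Unit, Fin q) =>
        ¬e.IsDiag ∧ e.map Sigma.fst ∈ (Set.univ : Set (Sym2 Unit)))).card = q.choose 2 := by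
      have h2 := Sym2.card_subtype_not_diag (α := Σ _ : Unit, Fin q)
      rw [Fintype.card_subtype] at h2
      simp only [Set.mem_univ, and_true]
      rw [h2]
      simp
    rw [h1]
    exact hn
  · intro j
    refine Submodule.span_mono ?_ (hgen (a j) (ha j))
    rintro z ⟨D, hD, D', hD', rfl⟩
    exact ⟨(), (), Set.mem_univ _, D, hD, D', hD', rfl⟩

end Pool.Agent.H255R.VZ
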